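import Mathlib
import Pool.Agent.Lib.MP_d0f9e0_co.SH.Pow

set_option autoImplicit false

/-!
# Definitions of the interfaces of Project Z

`V = ℚ × ℚ`, `ell θ`, `det`, `Hyp θ A η`, `cls S θ A X` are those of `SH/`.
-/

namespace Pool.MP_d0f9e0_co.GH

open SH

/-- The fibre of the quotient map over `x`: the set `x + L`. -/
def fib (L : AddSubgroup V) (x : V ⧸ L) : Set V := {p | (QuotientAddGroup.mk p : V ⧸ L) = x}

/-- The fixed points of `A` on `V / L` (for `A L = L`). -/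
def Fx (A : V ≃+ V) (L : AddSubgroup V) : AddSubgroup (V ⧸ L) :=
  (L.comap (A.toAddMonoidHom - AddMonoidHom.id V)).map (QuotientAddGroup.mk' L)

/-- The double Bernoulli polynomial. -/
noncomputable def B22 (a b z : ℝ) : ℝ :=
  z ^ 2 / (a * b) - (a + b) * z / (a * b) + (a ^ 2 + b ^ 2 + 3 * a * b) / (6 * a * b)

/-- Half of the sum of `B22` over the points of `X` in the half open parallelogram. -/
noncomputable def FZ (θ : ℝ) (X : Set V) (v w : V) : ℝ :=
  ∑ᶠ p ∈ X ∩ Par v w, B22 (ell θ v) (ell θ w) (ell θ p) / 2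

open Classical in
/-- The phase of the class function. -/
noncomputable def clsZ (θ : ℝ) (A : V ≃+ V) (X : Set V) : ℝ :=
  if hx : ∃ v, Adm θ A X v then FZ θ X hx.choose (A hx.choose) else 0

/-- The class function on `V / L`. -/
noncomputable def cL (S : ℝ → ℝ → ℝ → ℝ) (θ : ℝ) (A : V ≃+ V) (L : AddSubgroup V) (x : V ⧸ L) : ℝ :=
  cls S θ A (fib L x)

/-- The phase `ζ(x) = e^{iπ Z(x)}` on `V / L`. -/
noncomputable def zL (θ : ℝ) (A : V ≃+ V) (L : AddSubgroup V) (x : V ⧸ L) : ℂ :=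
  Complex.exp (Real.pi * Complex.I * (clsZ θ A (fib L x) : ℝ))

/-- `e(x) = e^{2πix}`. -/
noncomputable def ex (x : ℝ) : ℂ := Complex.exp (2 * Real.pi * Complex.I * (x : ℝ))

/-- The bicharacter of the group of fixed points, `δ` = covolume of `L`. -/
noncomputable def psi (A : V ≃+ V) (L : AddSubgroup V) (δ : ℚ) (x y : V ⧸ L) : ℂ :=
  ex (((det (A x.out - x.out) y.out / δ : ℚ) : ℝ))

/-- `L` is the lattice spanned by `u, w` with `det u w = δ > 0`. -/
structure Lat (L : AddSubgroup V) (δ : ℚ) (u w : V) : Prop where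
  eq : L = AddSubgroup.closure {u, w}
  det_eq : det u w = δ
  pos : 0 < δ

/-- The standard lattice. -/
def Zl : AddSubgroup V := AddSubgroup.closure {((1 : ℚ), (0 : ℚ)), ((0 : ℚ), (1 : ℚ))}

/-- **Near group data**: all that the consumers may use about the values `c` and the phases `z`
on the finite group `G`. -/
structure NG {G : Type*} [AddCommGroup G] [Fintype G] (η : ℝ) (ψ : G → G → ℂ) (c : G → ℝ)
    (z : G → ℂ) : Prop where
  one_lt : 1 < η
  card : (Fintype.card G : ℝ) = η + η⁻¹ - 2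
  add : ∀ x y w, ψ (x + y) w = ψ x w * ψ y w
  symm : ∀ x y, ψ x y = ψ y x
  nondeg : ∀ x, x ≠ 0 → ∃ y, ψ x y ≠ 1
  pos : ∀ x, 0 < c x
  zero : c 0 = √η
  neg : ∀ x, x ≠ 0 → c x * c (-x) = 1
  znorm : ∀ x, ‖z x‖ = 1
  zneg : ∀ x, z (-x) = z x
  zquad : ∀ x y, z (x + y) ^ 2 * z 0 ^ 2 = z x ^ 2 * z y ^ 2 * ψ x y
  A2 : ∀ p, p ≠ 0 → ∀ y, ∑ a, (c a : ℂ) * c (p - a) * (z a / z (a - p)) * ψ a y =
    ((√η - (√η)⁻¹ : ℝ) : ℂ) * ψ p y * (c p * c y * c (-y - p)) *
      (z p * z y / (z 0 * z (y + p)))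

end Pool.MP_d0f9e0_co.GH
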