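import Mathlib
import Pool.Agent.Lib.MP_d0f9e0_co.GH.Defs

set_option autoImplicit false

/-!
# The finite group of fixed points and its bicharacter
-/

namespace Pool.MP_d0f9e0_co.GH

open SH

/-! ### The exponential -/

theorem ex_add (x y : ℝ) : ex (x + y) = ex x * ex y := by
  unfold ex
  rw [← Complex.exp_add]
  congr 1
  push_cast
  ring

theorem ex_eq_one_iff (x : ℝ) : ex x = 1 ↔ ∃ m : ℤ, x = m := by
  unfold ex
  rw [Complex.exp_eq_one_iff]
  have h : (2 * Real.pi * Complex.I : ℂ) ≠ 0 := Complex.two_pi_I_ne_zero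
  constructor
  · rintro ⟨m, hm⟩
    refine ⟨m, ?_⟩
    have : ((x : ℝ) : ℂ) = (m : ℂ) := by
      apply mul_left_cancel₀ h
      rw [hm]
      ring
    exact_mod_cast this
  · rintro ⟨m, rfl⟩
    exact ⟨m, by push_cast; ring⟩

theorem ex_int (m : ℤ) : ex (m : ℝ) = 1 := (ex_eq_one_iff _).mpr ⟨m, rfl⟩

theorem ex_ne_zero (x : ℝ) : ex x ≠ 0 := Complex.exp_ne_zero _

theorem ex_add_int (x : ℝ) (m : ℤ) : ex (x + m) = ex x := by
  rw [ex_add, ex_int, mul_one]

theorem norm_ex (x : ℝ) : ‖ex x‖ = 1 := by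
  unfold ex
  have : (2 * Real.pi * Complex.I * (x : ℝ) : ℂ) = ((2 * Real.pi * x : ℝ) : ℂ) * Complex.I := by
    push_cast; ring
  rw [this, Complex.norm_exp_ofReal_mul_I]

/-! ### The orientation form -/

theorem det_sub_left (u v w : V) : det (u - v) w = det u w - det v w := by
  simp only [det, Prod.fst_sub, Prod.snd_sub]; ring

theorem det_sub_right (u v w : V) : det u (v - w) = det u v - det u w := by
  simp only [det, Prod.fst_sub, Prod.snd_sub]; ring

theorem map_smul_rat (A : V ≃+ V) (r : ℚ) (p : V) : A (r • p) = r • A p := map_rat_smul A r p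

/-- `L` is stable under `A`. -/
def Stb (A : V ≃+ V) (L : AddSubgroup V) : Prop := ∀ p, A p ∈ L ↔ p ∈ L

/-! ### Lattices -/

theorem Lat.ne {L : AddSubgroup V} {δ : ℚ} {u w : V} (h : Lat L δ u w) : δ ≠ 0 := h.pos.ne'

theorem Lat.mem_iff {L : AddSubgroup V} {δ : ℚ} {u w : V} (h : Lat L δ u w) (p : V) :
    p ∈ L ↔ (∃ m : ℤ, det p w = m * δ) ∧ (∃ n : ℤ, det u p = n * δ) := by
  rw [h.eq, AddSubgroup.mem_closure_pair]
  constructor
  · rintro ⟨m, n, rfl⟩
    refine ⟨⟨m, ?_⟩, ⟨n, ?_⟩⟩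
    · rw [← Int.cast_smul_eq_zsmul ℚ m u, ← Int.cast_smul_eq_zsmul ℚ n w, det_add_left,
        det_smul_left, det_smul_left, det_self, h.det_eq]
      ring
    · rw [← Int.cast_smul_eq_zsmul ℚ m u, ← Int.cast_smul_eq_zsmul ℚ n w, det_add_right,
        det_smul_right, det_smul_right, det_self, h.det_eq]
      ring
  · rintro ⟨⟨m, hm⟩, ⟨n, hn⟩⟩
    refine ⟨m, n, ?_⟩
    have e := det_expand u w p
    rw [h.det_eq, hm, hn] at e
    have e2 : δ • p = δ • ((m : ℚ) • u + (n : ℚ) • w) := by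
      rw [e, smul_add, smul_smul, smul_smul, mul_comm δ, mul_comm δ]
    have e3 : p = (m : ℚ) • u + (n : ℚ) • w := by
      have := congrArg (fun x => δ⁻¹ • x) e2
      simpa only [smul_smul, inv_mul_cancel₀ h.ne, one_smul] using this
    rw [e3, Int.cast_smul_eq_zsmul, Int.cast_smul_eq_zsmul]

theorem Lat.left_mem {L : AddSubgroup V} {δ : ℚ} {u w : V} (h : Lat L δ u w) : u ∈ L := by
  rw [h.eq]; exact AddSubgroup.subset_closure (by simp)

theorem Lat.right_mem {L : AddSubgroup V} {δ : ℚ} {u w : V} (h : Lat L δ u w) : w ∈ L := by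
  rw [h.eq]; exact AddSubgroup.subset_closure (by simp)

theorem Lat.det_int {L : AddSubgroup V} {δ : ℚ} {u w : V} (h : Lat L δ u w) {p q : V}
    (hp : p ∈ L) (hq : q ∈ L) : ∃ m : ℤ, det p q = m * δ := by
  rw [h.eq, AddSubgroup.mem_closure_pair] at hp
  obtain ⟨m, n, rfl⟩ := hp
  obtain ⟨⟨a, ha⟩, ⟨b, hb⟩⟩ := (h.mem_iff q).mp hq
  refine ⟨m * b - n * a, ?_⟩
  rw [← Int.cast_smul_eq_zsmul ℚ m u, ← Int.cast_smul_eq_zsmul ℚ n w, det_add_left,
    det_smul_left, det_smul_left, hb, det_swap q w, ha]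
  push_cast
  ring

theorem Lat.mem_of_det {L : AddSubgroup V} {δ : ℚ} {u w : V} (h : Lat L δ u w) {p : V}
    (hp : ∀ q ∈ L, ∃ m : ℤ, det p q = m * δ) : p ∈ L := by
  rw [h.mem_iff]
  refine ⟨hp w h.right_mem, ?_⟩
  obtain ⟨m, hm⟩ := hp u h.left_mem
  refine ⟨-m, ?_⟩
  rw [det_swap, hm]
  push_cast
  ring

/-! ### Fixed points -/

theorem stb_sub {A : V ≃+ V} {L : AddSubgroup V} (hL : Stb A L) {l : V} (hl : l ∈ L) :
    A l - l ∈ L := L.sub_mem ((hL l).mpr hl) hl

theorem mem_Fx {A : V ≃+ V} {L : AddSubgroup V} (hL : Stb A L) (p : V) :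
    (QuotientAddGroup.mk p : V ⧸ L) ∈ Fx A L ↔ A p - p ∈ L := by
  unfold Fx
  rw [AddSubgroup.mem_map]
  constructor
  · rintro ⟨q, hq, hqp⟩
    rw [AddSubgroup.mem_comap] at hq
    change A q - q ∈ L at hq
    rw [QuotientAddGroup.mk'_apply, QuotientAddGroup.eq] at hqp
    have h1 := stb_sub hL hqp
    have e : A p - p = (A q - q) + (A (-q + p) - (-q + p)) := by
      rw [map_add, map_neg]; abel
    rw [e]
    exact L.add_mem hq h1
  · intro h
    exact ⟨p, h, rfl⟩

theorem out_mem {A : V ≃+ V} {L : AddSubgroup V} (hL : Stb A L) {x : V ⧸ L} (hx : x ∈ Fx A L) :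
    A x.out - x.out ∈ L := by
  rw [← mem_Fx hL]
  rw [QuotientAddGroup.out_eq']
  exact hx

variable {θ η : ℝ} {A : V ≃+ V}

theorem sub_inj (hθ : Irrational θ) (hA : Hyp θ A η) (h1 : η ≠ 1) {p : V}
    (hp : A p - p = 0) : p = 0 := by
  apply ell_eq_zero hθ
  have h2 : A p = p := sub_eq_zero.mp hp
  have h3 := hA.ell_eq p
  rw [h2] at h3
  have h4 : (η - 1) * ell θ p = 0 := by linarith
  rcases mul_eq_zero.mp h4 with h5 | h5
  · exact absurd (by linarith) h1
  · exact h5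

/-- `A - 1` as a linear map. -/
def lin (A : V ≃+ V) : V →ₗ[ℚ] V :=
  (A.toAddMonoidHom - AddMonoidHom.id V).toRatLinearMap

theorem lin_apply (A : V ≃+ V) (p : V) : lin A p = A p - p := rfl

theorem lin_bij (hθ : Irrational θ) (hA : Hyp θ A η) (h1 : η ≠ 1) :
    Function.Bijective (lin A) := by
  have hi : Function.Injective (lin A) := by
    rw [injective_iff_map_eq_zero]
    intro p hp
    exact sub_inj hθ hA h1 hp
  exact ⟨hi, (LinearMap.injective_iff_surjective).mp hi⟩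

theorem exists_pre (hθ : Irrational θ) (hA : Hyp θ A η) (h1 : η ≠ 1) (l : V) :
    ∃ p, A p - p = l := (lin_bij hθ hA h1).2 l

/-- `det ((A-1)p, q) = - det (A p, (A-1) q) `-type adjunction. -/
theorem det_adj (hA : Hyp θ A η) (p q : V) :
    det (A p - p) (A q) = - det p (A q - q) := by
  rw [det_sub_left, det_sub_right, hA.det_eq]
  ring

theorem det_symm_aux (hA : Hyp θ A η) (p q : V) :
    det (A p - p) q - det (A q - q) p = - det (A p - p) (A q - q) := by
  simp only [det_sub_left, det_sub_right, hA.det_eq]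
  rw [det_swap p (A q), det_swap p q]
  ring

variable {L : AddSubgroup V} {δ : ℚ} {u w : V}

theorem psi_mk (hA : Hyp θ A η) (hLat : Lat L δ u w) (hL : Stb A L) {p q : V}
    (hp : A p - p ∈ L) (hq : A q - q ∈ L) :
    psi A L δ (QuotientAddGroup.mk p) (QuotientAddGroup.mk q) =
      ex ((det (A p - p) q / δ : ℚ) : ℝ) := by
  unfold psi
  obtain ⟨a, ha⟩ : ∃ a ∈ L, (QuotientAddGroup.mk p : V ⧸ L).out = p + a := by
    refine ⟨-p + (QuotientAddGroup.mk p : V ⧸ L).out, ?_, by abel⟩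
    rw [← QuotientAddGroup.eq, QuotientAddGroup.out_eq']
  obtain ⟨b, hb⟩ : ∃ b ∈ L, (QuotientAddGroup.mk q : V ⧸ L).out = q + b := by
    refine ⟨-q + (QuotientAddGroup.mk q : V ⧸ L).out, ?_, by abel⟩
    rw [← QuotientAddGroup.eq, QuotientAddGroup.out_eq']
  rw [ha.2, hb.2]
  have hAb : A (q + b) - (q + b) ∈ L := by
    have e : A (q + b) - (q + b) = (A q - q) + (A b - b) := by rw [map_add]; abel
    rw [e]; exact L.add_mem hq (stb_sub hL hb.1)
  obtain ⟨m, hm⟩ := hLat.det_int (stb_sub hL ha.1) hb.1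
  obtain ⟨m1, hm1⟩ := hLat.det_int hp hb.1
  -- det (A a - a) q
  have h2 : ∃ m : ℤ, det (A a - a) q = m * δ := by
    obtain ⟨q', hq'⟩ := A.surjective q
    have hq'' : A q' - q' ∈ L := by
      have := (hL (A q' - q')).mp (by rw [map_sub, hq']; exact hq)
      exact this
    obtain ⟨n, hn⟩ := hLat.det_int ha.1 hq''
    refine ⟨-n, ?_⟩
    rw [← hq', det_adj hA, hn]
    push_cast
    ring
  obtain ⟨m2, hm2⟩ := h2
  have e : det (A (p + a) - (p + a)) (q + b) = det (A p - p) q + (m + m1 + m2) * δ := by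
    have e1 : A (p + a) - (p + a) = (A p - p) + (A a - a) := by rw [map_add]; abel
    rw [e1, det_add_left, det_add_right, det_add_right, hm, hm1, hm2]
    ring
  rw [e]
  have e2 : ((det (A p - p) q + (m + m1 + m2) * δ) / δ : ℚ) =
      det (A p - p) q / δ + ((m + m1 + m2 : ℤ) : ℚ) := by
    have := hLat.ne
    field_simp
    push_cast
    ring
  rw [e2]
  push_cast
  have := ex_add_int ((det (A p - p) q : ℝ) / (δ : ℝ)) (m + m1 + m2)
  push_cast at this
  exact this

theorem psi_add (hA : Hyp θ A η) (hLat : Lat L δ u w) (hL : Stb A L) {x y z : V ⧸ L}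
    (hx : x ∈ Fx A L) (hy : y ∈ Fx A L) (hz : z ∈ Fx A L) :
    psi A L δ (x + y) z = psi A L δ x z * psi A L δ y z := by
  obtain ⟨p, rfl⟩ := QuotientAddGroup.mk_surjective x
  obtain ⟨q, rfl⟩ := QuotientAddGroup.mk_surjective y
  obtain ⟨r, rfl⟩ := QuotientAddGroup.mk_surjective z
  rw [mem_Fx hL] at hx hy hz
  have hxy : A (p + q) - (p + q) ∈ L := by
    have e : A (p + q) - (p + q) = (A p - p) + (A q - q) := by rw [map_add]; abel
    rw [e]; exact L.add_mem hx hy
  rw [← QuotientAddGroup.mk_add, psi_mk hA hLat hL hxy hz, psi_mk hA hLat hL hx hz,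
    psi_mk hA hLat hL hy hz, ← ex_add]
  congr 1
  have e : A (p + q) - (p + q) = (A p - p) + (A q - q) := by rw [map_add]; abel
  rw [e, det_add_left]
  push_cast
  ring

theorem psi_symm (hA : Hyp θ A η) (hLat : Lat L δ u w) (hL : Stb A L) {x y : V ⧸ L}
    (hx : x ∈ Fx A L) (hy : y ∈ Fx A L) : psi A L δ x y = psi A L δ y x := by
  obtain ⟨p, rfl⟩ := QuotientAddGroup.mk_surjective x
  obtain ⟨q, rfl⟩ := QuotientAddGroup.mk_surjective y
  rw [mem_Fx hL] at hx hy
  rw [psi_mk hA hLat hL hx hy, psi_mk hA hLat hL hy hx]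
  obtain ⟨m, hm⟩ := hLat.det_int hx hy
  have e := det_symm_aux hA p q
  rw [hm] at e
  have e2 : (det (A p - p) q / δ : ℚ) = det (A q - q) p / δ + ((-m : ℤ) : ℚ) := by
    have := hLat.ne
    field_simp
    push_cast
    linarith
  rw [e2]
  push_cast
  have := ex_add_int ((det (A q - q) p : ℝ) / (δ : ℝ)) (-m)
  push_cast at this
  exact this

theorem psi_nondeg (hθ : Irrational θ) (hA : Hyp θ A η) (h1 : η ≠ 1) (hLat : Lat L δ u w)
    (hL : Stb A L) {x : V ⧸ L} (hx : x ∈ Fx A L) (hx0 : x ≠ 0) :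
    ∃ y ∈ Fx A L, psi A L δ x y ≠ 1 := by
  obtain ⟨p, rfl⟩ := QuotientAddGroup.mk_surjective x
  rw [mem_Fx hL] at hx
  by_contra hcon
  push Not at hcon
  apply hx0
  rw [QuotientAddGroup.eq_zero_iff]
  apply hLat.mem_of_det
  intro l hl
  obtain ⟨q, hq⟩ := exists_pre hθ hA h1 (A l)
  have hq' : A q - q ∈ L := by rw [hq]; exact (hL l).mpr hl
  obtain ⟨q', hq2⟩ := A.surjective q
  -- q = A q', (A-1) q = A ((A-1) q') = A l
  have h3 : A q' - q' = l := by
    apply A.injective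
    rw [map_sub, hq2, hq]
  have hc := hcon (QuotientAddGroup.mk q) ((mem_Fx hL q).mpr hq')
  rw [psi_mk hA hLat hL hx hq', ex_eq_one_iff] at hc
  obtain ⟨m, hm⟩ := hc
  have hm' : (det (A p - p) q / δ : ℚ) = m := by exact_mod_cast hm
  rw [div_eq_iff hLat.ne] at hm'
  refine ⟨-m, ?_⟩
  rw [← hq2, det_adj hA, h3] at hm'
  push_cast
  linarith

/-! ### The order of the group -/

theorem lin_det (A : V ≃+ V) :
    LinearMap.det (lin A) = det (A (1, 0) - (1, 0)) (A (0, 1) - (0, 1)) := by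
  rw [← LinearMap.det_toMatrix (Module.Basis.finTwoProd ℚ), Matrix.det_fin_two]
  simp only [LinearMap.toMatrix_apply, Module.Basis.finTwoProd_zero, Module.Basis.finTwoProd_one,
    lin_apply, Module.Basis.coe_finTwoProd_repr]
  simp [det]
  ring

theorem lin_det' (hθ : Irrational θ) (hA : Hyp θ A η) :
    ((LinearMap.det (lin A) : ℚ) : ℝ) = 2 - (η + η⁻¹) := by
  rw [lin_det]
  have d1 : det (A (1, 0)) (A (0, 1)) = 1 := by rw [hA.det_eq]; simp [det]
  have e1 := hA.ell_eq (1, 0)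
  have e2 := hA.ell_eq (0, 1)
  simp only [ell, Rat.cast_one, Rat.cast_zero, zero_mul, add_zero, mul_one, one_mul, zero_add] at e1 e2
  set a := (A (1, 0)).1
  set b := (A (1, 0)).2
  set c := (A (0, 1)).1
  set d := (A (0, 1)).2
  have d1' : a * d - b * c = 1 := d1
  have hd : (a : ℝ) * d - b * c = 1 := by exact_mod_cast d1'
  have hη := hA.pos
  have key : η * η - (a + d) * η + 1 = 0 := by
    have h1 : (b : ℝ) * θ = η - a := by linarith
    have h2 : (c : ℝ) = (η - d) * θ := by linarith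
    have : (b : ℝ) * c = (η - d) * (η - a) := by rw [h2, ← h1]; ring
    nlinarith
  have key2 : η + η⁻¹ = a + d := by
    field_simp
    linarith
  rw [key2]
  have e3 : det (A (1, 0) - (1, 0)) (A (0, 1) - (0, 1)) = 2 - (a + d) := by
    have : det (A (1, 0) - (1, 0)) (A (0, 1) - (0, 1)) = (a - 1) * (d - 1) - (b - 0) * (c - 0) := rfl
    rw [this]
    linarith
  rw [e3]
  push_cast
  ring

end Pool.MP_d0f9e0_co.GH
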