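import Mathlib
import Pool.Agent.Lib.MP_d0f9e0_co.GH.Grp

set_option autoImplicit false

/-!
# Existence of admissible vectors; fibres of lattices
-/

namespace Pool.MP_d0f9e0_co.GH

open SH

variable {θ η : ℝ} {A : V ≃+ V}

/-- The coordinates of `A`. -/
theorem coords (hA : Hyp θ A η) : ∃ a b c d : ℚ, A (1, 0) = (a, b) ∧ A (0, 1) = (c, d) ∧
    a * d - b * c = 1 ∧ (a : ℝ) + b * θ = η ∧ (c : ℝ) + d * θ = η * θ ∧
    ∀ x y : ℚ, A (x, y) = (a * x + c * y, b * x + d * y) := by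
  have d1 : det (A (1, 0)) (A (0, 1)) = 1 := by rw [hA.det_eq]; simp [det]
  have e1 := hA.ell_eq (1, 0)
  have e2 := hA.ell_eq (0, 1)
  simp only [ell, Rat.cast_one, Rat.cast_zero, zero_mul, add_zero, mul_one, one_mul,
    zero_add] at e1 e2
  refine ⟨(A (1, 0)).1, (A (1, 0)).2, (A (0, 1)).1, (A (0, 1)).2, rfl, rfl, d1, e1, e2, ?_⟩
  intro x y
  have e : ((x, y) : V) = x • ((1, 0) : V) + y • ((0, 1) : V) := by
    ext <;> simp
  rw [e, map_add, map_smul_rat, map_smul_rat]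
  ext <;> simp [mul_comm]

theorem exists_Q_pos (hθ : Irrational θ) (hA : Hyp θ A η) (h1 : 1 < η) :
    ∃ v : V, 0 < det v (A v) := by
  obtain ⟨a, b, c, d, -, -, hd, he1, he2, hx⟩ := coords hA
  have hT : (2 : ℝ) < a + d := by
    have hd' : (a : ℝ) * d - b * c = 1 := by exact_mod_cast hd
    have hb1 : (b : ℝ) * θ = η - a := by linarith
    have hc1 : (c : ℝ) = (η - d) * θ := by linarith
    have h2 : (b : ℝ) * c = (η - d) * (η - a) := by rw [hc1, ← hb1]; ring
    have h3 : η * η - (a + d) * η + 1 = 0 := by nlinarith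
    have h4 : ((a : ℝ) + d) * η = η * η + 1 := by linarith
    nlinarith [sq_nonneg (η - 1)]
  have hT' : (2 : ℚ) < a + d := by exact_mod_cast hT
  have hb : b ≠ 0 := by
    rintro rfl
    rw [Rat.cast_zero, zero_mul, add_zero] at he1
    have h2 : (((c : ℚ) : ℝ)) = ((a - d : ℚ) : ℝ) * θ := by push_cast; rw [← he1] at he2; linarith
    have h3 : a - d = 0 := by
      by_contra h3
      apply hθ
      refine ⟨c / (a - d), ?_⟩
      have h3' : ((a - d : ℚ) : ℝ) ≠ 0 := by exact_mod_cast h3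
      rw [Rat.cast_div, div_eq_iff h3', h2]
      ring
    have h4 : a = d := by linarith
    rw [h4] at hd hT'
    nlinarith
  have hQ : ∀ x y : ℚ, det (x, y) (A (x, y)) = b * x ^ 2 + (d - a) * x * y - c * y ^ 2 := by
    intro x y
    rw [hx]
    simp only [det]
    ring
  rcases lt_or_gt_of_ne hb with hb' | hb'
  · refine ⟨(a - d, 2 * b), ?_⟩
    rw [hQ]
    have h5 : b * (a - d) ^ 2 + (d - a) * (a - d) * (2 * b) - c * (2 * b) ^ 2 =
        -b * ((a + d) ^ 2 - 4 * (a * d - b * c)) := by ring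
    rw [h5, hd]
    apply mul_pos (by linarith)
    nlinarith
  · refine ⟨(1, 0), ?_⟩
    rw [hQ]
    simpa using hb'

variable {L : AddSubgroup V} {δ : ℚ} {u w : V}

theorem exists_mul_mem (hLat : Lat L δ u w) (v : V) : ∃ n : ℕ, 0 < n ∧ (n : ℚ) • v ∈ L := by
  set r := det v w / δ with hr
  set s := det u v / δ with hs
  refine ⟨r.den * s.den, Nat.mul_pos r.den_pos s.den_pos, ?_⟩
  rw [hLat.mem_iff]
  refine ⟨⟨r.num * s.den, ?_⟩, ⟨r.den * s.num, ?_⟩⟩
  · rw [det_smul_left]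
    have h1 : det v w = r * δ := by rw [hr, div_mul_cancel₀ _ hLat.ne]
    rw [h1]
    have h2 : (r.den : ℚ) * r = r.num := by
      rw [mul_comm]; exact Rat.mul_den_eq_num r
    push_cast
    linear_combination (s.den : ℚ) * δ * h2
  · rw [det_smul_right]
    have h1 : det u v = s * δ := by rw [hs, div_mul_cancel₀ _ hLat.ne]
    rw [h1]
    have h2 : (s.den : ℚ) * s = s.num := by
      rw [mul_comm]; exact Rat.mul_den_eq_num s
    push_cast
    linear_combination (r.den : ℚ) * δ * h2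

/-- **Admissible vectors exist** in every lattice. -/
theorem exists_adm (hθ : Irrational θ) (hA : Hyp θ A η) (h1 : 1 < η) (hLat : Lat L δ u w) :
    ∃ v ∈ L, 0 < ell θ v ∧ 0 < det v (A v) := by
  obtain ⟨v, hv⟩ := exists_Q_pos hθ hA h1
  obtain ⟨n, hn, hnv⟩ := exists_mul_mem hLat v
  have hn' : (0 : ℚ) < n := by exact_mod_cast hn
  have hd : 0 < det ((n : ℚ) • v) (A ((n : ℚ) • v)) := by
    rw [map_smul_rat, det_smul_left, det_smul_right]
    positivity
  have h0 : ell θ ((n : ℚ) • v) ≠ 0 := by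
    intro h
    rw [ell_eq_zero hθ h] at hd
    simp [det] at hd
  rcases lt_or_gt_of_ne h0 with h | h
  · refine ⟨-((n : ℚ) • v), L.neg_mem hnv, by rw [ell_neg]; linarith, ?_⟩
    rw [map_neg, det_neg_left, det_neg_right, neg_neg]
    exact hd
  · exact ⟨_, hnv, h, hd⟩

/-! ### Fibres -/

private theorem mem_fibA (L : AddSubgroup V) (x : V ⧸ L) (p : V) :
    p ∈ fib L x ↔ (QuotientAddGroup.mk p : V ⧸ L) = x := Iff.rfl

theorem fib_per (L : AddSubgroup V) (x : V ⧸ L) {v : V} (hv : v ∈ L) : Per (fib L x) v := by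
  intro p
  rw [mem_fibA, mem_fibA, QuotientAddGroup.mk_add, (QuotientAddGroup.eq_zero_iff v).mpr hv,
    add_zero]

theorem fib_inv (hL : Stb A L) {x : V ⧸ L} (hx : x ∈ Fx A L) : Inv A (fib L x) := by
  obtain ⟨q, rfl⟩ := QuotientAddGroup.mk_surjective x
  rw [mem_Fx hL] at hx
  intro p
  rw [mem_fibA, mem_fibA, QuotientAddGroup.eq, QuotientAddGroup.eq]
  have e : -(A p) + q = A (-p + q) - (A q - q) := by rw [map_add, map_neg]; abel
  constructor
  · intro h
    rw [e] at h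
    have := L.add_mem h hx
    rw [sub_add_cancel] at this
    exact (hL _).mp this
  · intro h
    rw [e]
    exact L.sub_mem ((hL _).mpr h) hx

theorem fib_disc (hLat : Lat L δ u w) (x : V ⧸ L) : Disc (fib L x) := by
  obtain ⟨q, rfl⟩ := QuotientAddGroup.mk_surjective x
  -- common denominator of the coordinates of `q, u, w`
  set N : ℕ := q.1.den * q.2.den * (u.1.den * u.2.den) * (w.1.den * w.2.den) with hN
  have hpos : 0 < N := by
    rw [hN]
    have := q.1.den_pos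
    have := q.2.den_pos
    have := u.1.den_pos
    have := u.2.den_pos
    have := w.1.den_pos
    have := w.2.den_pos
    positivity
  have key : ∀ r : ℚ, r.den ∣ N → ∃ m : ℤ, (N : ℚ) * r = m := by
    intro r ⟨k, hk⟩
    refine ⟨k * r.num, ?_⟩
    rw [hk]
    push_cast
    have h2 : (r.den : ℚ) * r = r.num := by
      rw [mul_comm]; exact Rat.mul_den_eq_num r
    linear_combination (k : ℚ) * h2
  obtain ⟨m1, h1⟩ := key q.1 ⟨q.2.den * (u.1.den * u.2.den) * (w.1.den * w.2.den), by rw [hN]; ring⟩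
  obtain ⟨m2, h2⟩ := key q.2 ⟨q.1.den * (u.1.den * u.2.den) * (w.1.den * w.2.den), by rw [hN]; ring⟩
  obtain ⟨m3, h3⟩ := key u.1 ⟨q.1.den * q.2.den * u.2.den * (w.1.den * w.2.den), by rw [hN]; ring⟩
  obtain ⟨m4, h4⟩ := key u.2 ⟨q.1.den * q.2.den * u.1.den * (w.1.den * w.2.den), by rw [hN]; ring⟩
  obtain ⟨m5, h5⟩ := key w.1 ⟨q.1.den * q.2.den * (u.1.den * u.2.den) * w.2.den, by rw [hN]; ring⟩
  obtain ⟨m6, h6⟩ := key w.2 ⟨q.1.den * q.2.den * (u.1.den * u.2.den) * w.1.den, by rw [hN]; ring⟩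
  refine ⟨N, hpos, ?_⟩
  intro p hp
  rw [mem_fibA, eq_comm, QuotientAddGroup.eq, hLat.eq, AddSubgroup.mem_closure_pair] at hp
  obtain ⟨m, n, hmn⟩ := hp
  have e : p = q + (m : ℚ) • u + (n : ℚ) • w := by
    rw [Int.cast_smul_eq_zsmul, Int.cast_smul_eq_zsmul, add_assoc, hmn]
    abel
  refine ⟨m1 + m * m3 + n * m5, m2 + m * m4 + n * m6, ?_, ?_⟩
  · rw [e]
    simp only [Prod.fst_add, Prod.smul_fst, smul_eq_mul]
    push_cast
    linear_combination h1 + (m : ℚ) * h3 + (n : ℚ) * h5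
  · rw [e]
    simp only [Prod.snd_add, Prod.smul_snd, smul_eq_mul]
    push_cast
    linear_combination h2 + (m : ℚ) * h4 + (n : ℚ) * h6

theorem fib_adm (hθ : Irrational θ) (hA : Hyp θ A η) (h1 : 1 < η) (hLat : Lat L δ u w)
    (x : V ⧸ L) : ∃ v ∈ L, Adm θ A (fib L x) v := by
  obtain ⟨v, hv, h2, h3⟩ := exists_adm hθ hA h1 hLat
  exact ⟨v, hv, ⟨fib_per L x hv, h2, h3⟩⟩

end Pool.MP_d0f9e0_co.GH
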