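import Mathlib
import Pool.Agent.Lib.MP_d0f9e0_co.GH.Adm

set_option autoImplicit false

/-!
# The base map: multiplication by `β`, `β + 1/β = T ≥ 3`, on `ℤ + ℤβ`
-/

namespace Pool.MP_d0f9e0_co.GH

open SH

/-- Multiplication by `β` in the basis `1, β`. -/
def Bm (T : ℤ) : V ≃+ V where
  toFun p := (-p.2, p.1 + T * p.2)
  invFun p := (p.2 + T * p.1, -p.1)
  left_inv p := by ext <;> simp
  right_inv p := by ext <;> simp
  map_add' p q := by ext <;> simp <;> ring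

theorem Bm_apply (T : ℤ) (p : V) : Bm T p = (-p.2, p.1 + T * p.2) := rfl

/-- The unit `β`. -/
noncomputable def bet (T : ℤ) : ℝ := ((T : ℝ) + √((T : ℝ) ^ 2 - 4)) / 2

variable {T : ℤ}

theorem disc_pos (hT : 3 ≤ T) : (0 : ℝ) < (T : ℝ) ^ 2 - 4 := by
  have : (3 : ℝ) ≤ T := by exact_mod_cast hT
  nlinarith

theorem bet_eq (hT : 3 ≤ T) : bet T * bet T = T * bet T - 1 := by
  have h := Real.mul_self_sqrt (disc_pos hT).le
  unfold bet
  nlinarith

theorem bet_gt (hT : 3 ≤ T) : 1 < bet T := by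
  have h3 : (3 : ℝ) ≤ T := by exact_mod_cast hT
  have h := Real.sqrt_pos.mpr (disc_pos hT)
  unfold bet
  linarith

theorem bet_add_inv (hT : 3 ≤ T) : bet T + (bet T)⁻¹ = T := by
  have h1 := bet_gt hT
  have h0 : bet T ≠ 0 := by linarith
  have h2 := bet_eq hT
  field_simp
  linarith

theorem two_bet (T : ℤ) : 2 * bet T - T = √((T : ℝ) ^ 2 - 4) := by
  unfold bet; ring

theorem not_sq (hT : 3 ≤ T) : ¬ IsSquare (T ^ 2 - 4) := by
  rintro ⟨r, hr⟩
  have h1 : (T - |r|) * (T + |r|) = 4 := by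
    have : |r| * |r| = r * r := abs_mul_abs_self r
    nlinarith
  have hr0 : 0 ≤ |r| := abs_nonneg r
  have h2 : 0 < T - |r| := by
    by_contra h
    push Not at h
    nlinarith
  have h3 : |r| < T := by linarith
  have h4 : 1 ≤ T - |r| := h2
  have h5 : T + |r| ≤ 4 := by nlinarith
  have h6 : |r| ≤ 1 := by linarith
  interval_cases h : |r|
  · nlinarith
  · nlinarith

theorem irr_sqrt (hT : 3 ≤ T) : Irrational (√((T : ℝ) ^ 2 - 4)) := by
  have h := not_sq hT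
  have h1 : (0 : ℤ) ≤ T ^ 2 - 4 := by nlinarith
  obtain ⟨n, hn⟩ := Int.eq_ofNat_of_zero_le h1
  have e : (T : ℝ) ^ 2 - 4 = (n : ℝ) := by
    have : ((T ^ 2 - 4 : ℤ) : ℝ) = ((n : ℤ) : ℝ) := by rw [hn]
    push_cast at this
    exact this
  rw [e]
  rw [irrational_sqrt_natCast_iff]
  intro hs
  apply h
  rw [hn]
  obtain ⟨k, hk⟩ := hs
  exact ⟨(k : ℤ), by exact_mod_cast hk⟩

theorem irr_bet (hT : 3 ≤ T) : Irrational (bet T) := by
  intro ⟨r, hr⟩
  apply irr_sqrt hT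
  refine ⟨2 * r - T, ?_⟩
  rw [← two_bet, ← hr]
  push_cast
  ring

theorem hyp_Bm (hT : 3 ≤ T) : Hyp (bet T) (Bm T) (bet T) where
  det_eq p q := by
    simp only [det, Bm_apply]
    ring
  ell_eq p := by
    simp only [ell, Bm_apply]
    have h := bet_eq hT
    push_cast
    linear_combination (-(p.2 : ℝ)) * h
  pos := by
    have := bet_gt hT
    linarith

theorem mem_Zl (p : V) : p ∈ Zl ↔ ∃ m n : ℤ, p = ((m : ℚ), (n : ℚ)) := by
  unfold Zl
  rw [AddSubgroup.mem_closure_pair]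
  constructor
  · rintro ⟨m, n, rfl⟩
    exact ⟨m, n, by ext <;> simp⟩
  · rintro ⟨m, n, rfl⟩
    exact ⟨m, n, by ext <;> simp⟩

theorem lat_Zl : Lat Zl 1 (1, 0) (0, 1) where
  eq := rfl
  det_eq := by simp [det]
  pos := one_pos

theorem stb_Bm (T : ℤ) : Stb (Bm T) Zl := by
  intro p
  rw [mem_Zl, mem_Zl]
  constructor
  · rintro ⟨m, n, h⟩
    rw [Bm_apply] at h
    have h1 : -p.2 = (m : ℚ) := congrArg Prod.fst h
    have h2 : p.1 + T * p.2 = (n : ℚ) := congrArg Prod.snd h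
    refine ⟨n + T * m, -m, ?_⟩
    ext
    · push_cast
      rw [← h1, ← h2]; ring
    · push_cast
      rw [← h1]; ring
  · rintro ⟨m, n, rfl⟩
    refine ⟨-n, m + T * n, ?_⟩
    rw [Bm_apply]
    ext <;> push_cast <;> rfl

theorem stb_pw {A : V ≃+ V} {L : AddSubgroup V} (h : Stb A L) (j : ℕ) : Stb (pw A j) L := by
  induction j with
  | zero => intro p; rw [pow_apply_zero]
  | succ j ih => intro p; rw [pow_apply_succ, h, ih]

end Pool.MP_d0f9e0_co.GH
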