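import Pool.Agent.Lib.MP_d0f9e0_co.GH.Grp

set_option autoImplicit false

/-!
# The order of the group of fixed points, the trace, change of lattice
-/

namespace Pool.MP_d0f9e0_co.GH

open SH

variable {θ η : ℝ} {A : V ≃+ V} {L : AddSubgroup V} {δ : ℚ} {u w : V}

/-! ### The order -/

theorem linIndep_of_det {u w : V} (h : det u w ≠ 0) : LinearIndependent ℚ ![u, w] := by
  rw [LinearIndependent.pair_iff]
  intro a b hab
  have h1 : det (a • u + b • w) w = 0 := by rw [hab]; simp [det]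
  have h2 : det u (a • u + b • w) = 0 := by rw [hab]; simp [det]
  rw [det_add_left, det_smul_left, det_smul_left, det_self, mul_zero, add_zero] at h1
  rw [det_add_right, det_smul_right, det_smul_right, det_self, mul_zero, zero_add] at h2
  exact ⟨(mul_eq_zero.1 h1).resolve_right h, (mul_eq_zero.1 h2).resolve_right h⟩

/-- the basis `u, w` of `V` -/
noncomputable def bas (u w : V) (h : det u w ≠ 0) : Module.Basis (Fin 2) ℚ V :=
  basisOfLinearIndependentOfCardEqFinrank (linIndep_of_det h) (by simp)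

theorem bas_apply (u w : V) (h : det u w ≠ 0) : ⇑(bas u w h) = ![u, w] := by
  unfold bas
  rw [coe_basisOfLinearIndependentOfCardEqFinrank]

/-- `A - 1` as a linear equivalence -/
noncomputable def linE (hθ : Irrational θ) (hA : Hyp θ A η) (h1 : η ≠ 1) : V ≃ₗ[ℚ] V :=
  LinearEquiv.ofBijective (lin A) (lin_bij hθ hA h1)

theorem linE_symm (hθ : Irrational θ) (hA : Hyp θ A η) (h1 : η ≠ 1) (p : V) :
    A ((linE hθ hA h1).symm p) - (linE hθ hA h1).symm p = p :=
  (linE hθ hA h1).apply_symm_apply p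

theorem card_Fx (hθ : Irrational θ) (hA : Hyp θ A η) (h1 : 1 < η) (hLat : Lat L δ u w)
    (hL : Stb A L) : (Nat.card (Fx A L) : ℝ) = η + η⁻¹ - 2 := by
  have hne : η ≠ 1 := h1.ne'
  have hd : det u w ≠ 0 := by rw [hLat.det_eq]; exact hLat.ne
  set b₁ := bas u w hd with hb₁
  set b₂ := b₁.map (linE hθ hA hne).symm with hb₂
  set L₂ : AddSubgroup V := L.comap (A.toAddMonoidHom - AddMonoidHom.id V) with hL₂
  have hle : L ≤ L₂ := by
    intro l hl
    exact stb_sub hL hl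
  have e1 : L = .closure (Set.range b₁) := by
    rw [hLat.eq, hb₁, bas_apply]
    congr 1
    simp [Set.pair_comm]
  have hrange : Set.range b₂ = {(linE hθ hA hne).symm u, (linE hθ hA hne).symm w} := by
    have : ⇑b₂ = ![(linE hθ hA hne).symm u, (linE hθ hA hne).symm w] := by
      ext1 i
      rw [hb₂, Module.Basis.map_apply, hb₁, bas_apply]
      fin_cases i <;> rfl
    rw [this]
    simp [Set.pair_comm]
  have e2 : L₂ = .closure (Set.range b₂) := by
    rw [hrange]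
    ext p
    rw [hL₂, AddSubgroup.mem_comap, AddSubgroup.mem_closure_pair]
    change A p - p ∈ L ↔ _
    rw [hLat.eq, AddSubgroup.mem_closure_pair]
    constructor
    · rintro ⟨m, n, hmn⟩
      refine ⟨m, n, ?_⟩
      rw [← map_zsmul, ← map_zsmul, ← map_add, hmn, LinearEquiv.symm_apply_eq]
      rfl
    · rintro ⟨m, n, rfl⟩
      refine ⟨m, n, ?_⟩
      rw [← map_zsmul, ← map_zsmul, ← map_add, linE_symm]
  have key := AddSubgroup.relIndex_eq_abs_det L L₂ hle b₁ b₂ e1 e2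
  have hdet : b₂.det b₁ = LinearMap.det (lin A) := by
    have h3 : ⇑b₁ = lin A ∘ b₂ := by
      ext1 i
      rw [Function.comp_apply, hb₂, Module.Basis.map_apply, lin_apply, linE_symm]
    rw [h3, Module.Basis.det_comp, Module.Basis.det_self, mul_one]
  have hcard : Nat.card (Fx A L) = L.relIndex L₂ := by
    have h4 := AddSubgroup.relIndex_ker L₂ (QuotientAddGroup.mk' L)
    rw [QuotientAddGroup.ker_mk'] at h4
    rw [h4]
    rfl
  have h5 := lin_det' hθ hA
  have h6 : ((L.relIndex L₂ : ℚ) : ℝ) = |2 - (η + η⁻¹)| := by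
    rw [key, hdet, ← h5, Rat.cast_abs]
  rw [hcard]
  have h7 : ((L.relIndex L₂ : ℕ) : ℝ) = ((L.relIndex L₂ : ℚ) : ℝ) := by push_cast; rfl
  rw [h7, h6, abs_of_neg]
  · ring
  · have h0 : 0 < η := hA.pos
    have : 0 < (η - 1) ^ 2 / η := by
      apply div_pos _ h0
      have : η - 1 ≠ 0 := sub_ne_zero.2 hne
      positivity
    have e : (η - 1) ^ 2 / η = η + η⁻¹ - 2 := by field_simp; ring
    rw [e] at this
    linarith

theorem card_pos (h0 : 0 < η) (h1 : η ≠ 1) : 0 < η + η⁻¹ - 2 := by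
  have : 0 < (η - 1) ^ 2 / η := by
    apply div_pos _ h0
    have : η - 1 ≠ 0 := sub_ne_zero.2 h1
    positivity
  have e : (η - 1) ^ 2 / η = η + η⁻¹ - 2 := by field_simp; ring
  rw [← e]
  exact this

theorem finite_Fx (hθ : Irrational θ) (hA : Hyp θ A η) (h1 : 1 < η) (hLat : Lat L δ u w)
    (hL : Stb A L) : Finite (Fx A L) := by
  apply Nat.finite_of_card_ne_zero
  intro h
  have h2 := card_Fx hθ hA h1 hLat hL
  rw [h] at h2
  have h3 := card_pos hA.pos h1.ne'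
  rw [← h2] at h3
  simp at h3

/-! ### The trace -/

/-- the trace of `A` -/
def tr (A : V ≃+ V) : ℚ := (A (1, 0)).1 + (A (0, 1)).2

theorem apply_eq (A : V ≃+ V) (v : V) : A v = v.1 • A (1, 0) + v.2 • A (0, 1) := by
  have : v = v.1 • ((1 : ℚ), (0 : ℚ)) + v.2 • ((0 : ℚ), (1 : ℚ)) := by
    ext <;> simp
  conv_lhs => rw [this]
  rw [map_add, map_smul_rat, map_smul_rat]

theorem det_tr (A : V ≃+ V) (p q : V) : det (A p) q + det p (A q) = tr A * det p q := by
  rw [apply_eq A p, apply_eq A q]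
  simp only [det, tr, Prod.fst_add, Prod.snd_add, Prod.smul_fst, Prod.smul_snd, smul_eq_mul]
  ring

/-- `det (A p - p, A q - q) = (2 - tr A) det (p, q)` -/
theorem det_sub_sub (hA : Hyp θ A η) (p q : V) :
    det (A p - p) (A q - q) = (2 - tr A) * det p q := by
  have e := det_tr A p q
  rw [det_sub_left, det_sub_right, det_sub_right, hA.det_eq]
  linarith

theorem eq_zero_of_det {v : V} (hv : ∀ q, det v q = 0) : v = 0 := by
  have a := hv (1, 0)
  have b := hv (0, 1)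
  simp only [det, mul_one, mul_zero, zero_sub, sub_zero, neg_eq_zero] at a b
  exact Prod.ext b a

/-- Cayley and Hamilton -/
theorem cayley (hA : Hyp θ A η) (p : V) : A (A p) + p = tr A • A p := by
  have h1 : ∀ q : V, det (A (A p) + p - tr A • A p) q = 0 := by
    intro q
    obtain ⟨r, rfl⟩ := A.surjective q
    have e := det_tr A (A p) (A r)
    have e2 : det (A (A p)) (A r) = det (A p) r := hA.det_eq _ _
    have e3 : det (A p) (A (A r)) = det p (A r) := hA.det_eq _ _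
    rw [det_sub_left, det_add_left, det_smul_left, e2]
    rw [e2, e3, hA.det_eq] at e
    rw [hA.det_eq]
    linarith
  exact sub_eq_zero.1 (eq_zero_of_det h1)

theorem eta_tr (hA : Hyp θ A η) : η + η⁻¹ = tr A := by
  have h1 := cayley hA ((1 : ℚ), (0 : ℚ))
  have h2 := congrArg (ell θ) h1
  rw [ell_add, ell_smul, hA.ell_eq, hA.ell_eq] at h2
  have h3 : ell θ ((1 : ℚ), (0 : ℚ)) = 1 := by simp [ell]
  rw [h3] at h2
  have hη := hA.pos
  field_simp
  linarith

/-- The trace is an integer `≥ 3`. -/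
theorem exists_trace (hθ : Irrational θ) (hA : Hyp θ A η) (h1 : 1 < η) (hLat : Lat L δ u w)
    (hL : Stb A L) : ∃ T : ℤ, 3 ≤ T ∧ η + η⁻¹ = T ∧ (Nat.card (Fx A L) : ℤ) = T - 2 ∧
      tr A = T ∧ ∀ p, A (A p) + p = T • A p := by
  have hc := card_Fx hθ hA h1 hLat hL
  have hf := finite_Fx hθ hA h1 hLat hL
  have hpos : 0 < Nat.card (Fx A L) := Nat.card_pos
  have hT : η + η⁻¹ = (((Nat.card (Fx A L) : ℤ) + 2 : ℤ) : ℝ) := by
    push_cast
    rw [hc]
    ring
  have htr : tr A = (((Nat.card (Fx A L) : ℤ) + 2 : ℤ) : ℚ) := by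
    have h2 := eta_tr hA
    rw [hT] at h2
    exact_mod_cast h2.symm
  refine ⟨(Nat.card (Fx A L) : ℤ) + 2, by omega, hT, by ring, htr, ?_⟩
  intro p
  rw [cayley hA p, htr, Int.cast_smul_eq_zsmul]

/-! ### Transport -/

/-- the map `V / L → V / L'` induced by `g`, `g L = L'` -/
def gq (g : V ≃+ V) (L L' : AddSubgroup V) (h : ∀ p, g p ∈ L' ↔ p ∈ L) : V ⧸ L ≃+ V ⧸ L' :=
  QuotientAddGroup.congr L L' g (by
    ext q
    constructor
    · rintro ⟨p, hp, rfl⟩
      exact (h p).2 hp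
    · intro hq
      obtain ⟨p, rfl⟩ := g.surjective q
      exact ⟨p, (h p).1 hq, rfl⟩)

theorem gq_mk (g : V ≃+ V) (L L' : AddSubgroup V) (h : ∀ p, g p ∈ L' ↔ p ∈ L) (p : V) :
    gq g L L' h (QuotientAddGroup.mk p) = QuotientAddGroup.mk (g p) := rfl

theorem mem_fib {L : AddSubgroup V} {x : V ⧸ L} {p : V} :
    p ∈ fib L x ↔ (QuotientAddGroup.mk p : V ⧸ L) = x := Iff.rfl

theorem fib_gq (g : V ≃+ V) (L L' : AddSubgroup V) (h : ∀ p, g p ∈ L' ↔ p ∈ L) (x : V ⧸ L)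
    (p : V) : g p ∈ fib L' (gq g L L' h x) ↔ p ∈ fib L x := by
  rw [mem_fib, mem_fib, ← gq_mk g L L' h]
  exact (gq g L L' h).injective.eq_iff

theorem stb_gq {g A A' : V ≃+ V} {L L' : AddSubgroup V} (h : ∀ p, g p ∈ L' ↔ p ∈ L)
    (hc : ∀ p, g (A p) = A' (g p)) (hL : Stb A L) : Stb A' L' := by
  intro q
  obtain ⟨p, rfl⟩ := g.surjective q
  rw [← hc, h, h, hL p]

theorem gq_mem_Fx {g A A' : V ≃+ V} {L L' : AddSubgroup V} (h : ∀ p, g p ∈ L' ↔ p ∈ L)
    (hc : ∀ p, g (A p) = A' (g p)) (hL : Stb A L) (x : V ⧸ L) :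
    gq g L L' h x ∈ Fx A' L' ↔ x ∈ Fx A L := by
  obtain ⟨p, rfl⟩ := QuotientAddGroup.mk_surjective x
  rw [gq_mk, mem_Fx (stb_gq h hc hL), mem_Fx hL, ← hc, ← map_sub, h]

/-- the isomorphism `Fx A L ≃ Fx A' L'` -/
def gF {g A A' : V ≃+ V} {L L' : AddSubgroup V} (h : ∀ p, g p ∈ L' ↔ p ∈ L)
    (hc : ∀ p, g (A p) = A' (g p)) (hL : Stb A L) : Fx A L ≃+ Fx A' L' where
  toFun x := ⟨gq g L L' h x.1, (gq_mem_Fx h hc hL x.1).2 x.2⟩
  invFun y := ⟨(gq g L L' h).symm y.1, by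
    rw [← gq_mem_Fx h hc hL, AddEquiv.apply_symm_apply]
    exact y.2⟩
  left_inv x := by
    ext
    simp
  right_inv y := by
    ext
    simp
  map_add' x y := by
    ext
    simp

theorem coe_gF {g A A' : V ≃+ V} {L L' : AddSubgroup V} (h : ∀ p, g p ∈ L' ↔ p ∈ L)
    (hc : ∀ p, g (A p) = A' (g p)) (hL : Stb A L) (x : Fx A L) :
    ((gF h hc hL x : Fx A' L') : V ⧸ L') = gq g L L' h x.1 := rfl

theorem psi_gq {θ' η' : ℝ} {g A A' : V ≃+ V} {L L' : AddSubgroup V} {δ δ' κ : ℚ}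
    {u w u' w' : V} (hA : Hyp θ A η) (hA' : Hyp θ' A' η') (hLat : Lat L δ u w)
    (hLat' : Lat L' δ' u' w') (h : ∀ p, g p ∈ L' ↔ p ∈ L) (hc : ∀ p, g (A p) = A' (g p))
    (hL : Stb A L) (hκ : κ ≠ 0) (hdet : ∀ p q, det (g p) (g q) = κ * det p q)
    (hδ : δ' = κ * δ) {x y : V ⧸ L} (hx : x ∈ Fx A L) (hy : y ∈ Fx A L) :
    psi A' L' δ' (gq g L L' h x) (gq g L L' h y) = psi A L δ x y := by
  obtain ⟨p, rfl⟩ := QuotientAddGroup.mk_surjective x
  obtain ⟨q, rfl⟩ := QuotientAddGroup.mk_surjective y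
  have hp' := (gq_mem_Fx h hc hL _).2 hx
  have hq' := (gq_mem_Fx h hc hL _).2 hy
  rw [gq_mk, mem_Fx (stb_gq h hc hL)] at hp' hq'
  rw [mem_Fx hL] at hx hy
  rw [gq_mk, gq_mk, psi_mk hA' hLat' (stb_gq h hc hL) hp' hq', psi_mk hA hLat hL hx hy]
  congr 2
  rw [← hc, ← map_sub, hdet, hδ, mul_div_mul_left _ _ hκ]

/-- the image lattice -/
theorem Lat.map {L L' : AddSubgroup V} {δ κ : ℚ} {u w : V} (hLat : Lat L δ u w) (g : V ≃+ V)
    (h : ∀ p, g p ∈ L' ↔ p ∈ L) (hκ : 0 < κ)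
    (hdet : ∀ p q, det (g p) (g q) = κ * det p q) : Lat L' (κ * δ) (g u) (g w) := by
  refine ⟨?_, ?_, mul_pos hκ hLat.pos⟩
  · ext q
    obtain ⟨p, rfl⟩ := g.surjective q
    rw [h, hLat.eq, AddSubgroup.mem_closure_pair, AddSubgroup.mem_closure_pair]
    constructor
    · rintro ⟨m, n, rfl⟩
      exact ⟨m, n, by rw [map_add, map_zsmul, map_zsmul]⟩
    · rintro ⟨m, n, hmn⟩
      exact ⟨m, n, g.injective (by rw [map_add, map_zsmul, map_zsmul, hmn])⟩
  · rw [hdet, hLat.det_eq]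

end Pool.MP_d0f9e0_co.GH
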