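import Mathlib
import Pool.Agent.Lib.MP_d0f9e0_co.GH.Beta
import Pool.Agent.Lib.MP_d0f9e0_co.GH.Card
import Pool.Agent.Lib.MP_d0f9e0_co.SH.Bridge

set_option autoImplicit false

/-!
# Near group data from the phase relations and the identity (A2)
-/

namespace Pool.MP_d0f9e0_co.GH

open SH

variable {S : ℝ → ℝ → ℝ → ℝ} {θ η : ℝ} {A : V ≃+ V} {L : AddSubgroup V} {δ : ℚ} {u w : V}

theorem good_of (hθ : Irrational θ) (hA : Hyp θ A η) (h1 : 1 < η) : Good θ A η where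
  toHyp := hA
  ex := by
    obtain ⟨v, -, h2, h3⟩ := exists_adm hθ hA h1 (lat_Zl)
    exact ⟨v, h2, h3⟩

theorem cL_pos (hS : DS S) (hθ : Irrational θ) (hA : Hyp θ A η) (x : V ⧸ L) :
    0 < cL S θ A L x := cl_pos hS hθ hA L x

theorem cL_zero (hS : DS S) (hθ : Irrational θ) (hA : Hyp θ A η) (h1 : 1 < η)
    (hLat : Lat L δ u w) (hL : Stb A L) : cL S θ A L 0 = √η :=
  cl_zero hS hθ (good_of hθ hA h1) (Lat.of_gh hLat) hL

theorem cL_neg (hS : DS S) (hθ : Irrational θ) (hA : Hyp θ A η) (h1 : 1 < η)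
    (hLat : Lat L δ u w) (hL : Stb A L) {x : V ⧸ L} (hx : x ∈ Fx A L) (h0 : x ≠ 0) :
    cL S θ A L x * cL S θ A L (-x) = 1 :=
  cl_neg hS hθ (good_of hθ hA h1) (Lat.of_gh hLat) hL ((mem_Fx_iff hL).mp hx) h0

theorem norm_zL (θ : ℝ) (A : V ≃+ V) (L : AddSubgroup V) (x : V ⧸ L) : ‖zL θ A L x‖ = 1 := by
  unfold zL
  have : (Real.pi * Complex.I * (clsZ θ A (fib L x) : ℝ) : ℂ) =
      ((Real.pi * clsZ θ A (fib L x) : ℝ) : ℂ) * Complex.I := by
    push_cast; ring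
  rw [this, Complex.norm_exp_ofReal_mul_I]

/-- The near group structure, once the phase relations and (A2) are known. -/
theorem ng_of [Fintype (Fx A L)] (hS : DS S) (hθ : Irrational θ) (hA : Hyp θ A η) (h1 : 1 < η)
    (hLat : Lat L δ u w) (hL : Stb A L)
    (hneg : ∀ x ∈ Fx A L, zL θ A L (-x) = zL θ A L x)
    (hquad : ∀ x ∈ Fx A L, ∀ y ∈ Fx A L, zL θ A L (x + y) ^ 2 * zL θ A L 0 ^ 2 =
      zL θ A L x ^ 2 * zL θ A L y ^ 2 * psi A L δ x y)
    (hA2 : ∀ p : Fx A L, p ≠ 0 → ∀ y : Fx A L,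
      ∑ a : Fx A L, (cL S θ A L a : ℂ) * cL S θ A L ((p - a : Fx A L) : V ⧸ L) *
        (zL θ A L a / zL θ A L ((a - p : Fx A L) : V ⧸ L)) * psi A L δ a y =
      ((√η - (√η)⁻¹ : ℝ) : ℂ) * psi A L δ p y *
        (cL S θ A L p * cL S θ A L y * cL S θ A L ((-y - p : Fx A L) : V ⧸ L)) *
        (zL θ A L p * zL θ A L y / (zL θ A L 0 * zL θ A L ((y + p : Fx A L) : V ⧸ L)))) :
    NG η (fun x y : Fx A L => psi A L δ x y) (fun x => cL S θ A L x) (fun x => zL θ A L x) where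
  one_lt := h1
  card := by
    have := card_Fx hθ hA h1 hLat hL
    rw [Nat.card_eq_fintype_card] at this
    exact this
  add x y z := psi_add hA hLat hL x.2 y.2 z.2
  symm x y := psi_symm hA hLat hL x.2 y.2
  nondeg x hx := by
    obtain ⟨y, hy, h⟩ := psi_nondeg hθ hA h1.ne' hLat hL x.2
      (fun h => hx (Subtype.ext h))
    exact ⟨⟨y, hy⟩, h⟩
  pos x := cL_pos hS hθ hA _
  zero := cL_zero hS hθ hA h1 hLat hL
  neg x hx := cL_neg hS hθ hA h1 hLat hL x.2 (fun h => hx (Subtype.ext h))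
  znorm x := norm_zL θ A L x
  zneg x := hneg x x.2
  zquad x y := hquad x x.2 y y.2
  A2 p hp y := hA2 p hp y

end Pool.MP_d0f9e0_co.GH
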