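import Mathlib
import Pool.Agent.Lib.MP_d0f9e0_co.GH.NGof

set_option autoImplicit false

/-!
# The target of the analytic side: near group data for all lattices
-/

namespace Pool.MP_d0f9e0_co.GH

open SH

/-- Near group data for the standard lattice, all `θ`, `A`. -/
def ZlNG (S : ℝ → ℝ → ℝ → ℝ) : Prop :=
  ∀ (θ : ℝ) (A : V ≃+ V) (η : ℝ) [Fintype (Fx A Zl)], Irrational θ → Hyp θ A η → 1 < η →
    Stb A Zl → NG η (fun x y : Fx A Zl => psi A Zl 1 x y) (fun x => cL S θ A Zl x)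
      (fun x => zL θ A Zl x)

/-- Near group data for all lattices. -/
def AllNG (S : ℝ → ℝ → ℝ → ℝ) : Prop :=
  ∀ (θ : ℝ) (A : V ≃+ V) (η : ℝ) (L : AddSubgroup V) (δ : ℚ) (u w : V) [Fintype (Fx A L)],
    Irrational θ → Hyp θ A η → 1 < η → Lat L δ u w → Stb A L →
      NG η (fun x y : Fx A L => psi A L δ x y) (fun x => cL S θ A L x) (fun x => zL θ A L x)

end Pool.MP_d0f9e0_co.GH
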