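import Mathlib
import Pool.Agent.Lib.MP_d0f9e0_co.SH.Bridge
import Pool.Agent.Lib.MP_d0f9e0_co.SH.Inst
import Pool.Agent.Lib.MP_d0f9e0_co.GH.Adm
import Pool.Agent.Lib.MP_d0f9e0_co.GH.NGof

set_option autoImplicit false

/-!
# Positivity, reflection, (T), (H), (D) for the class function `cL`
-/

namespace Pool.MP_d0f9e0_co.GH

open SH

variable {θ η : ℝ} {A : V ≃+ V}

theorem isFix_of {L : AddSubgroup V} (hL : Stb A L) {x : V ⧸ L} (hx : x ∈ Fx A L) :
    IsFix A L x := (mem_Fx_iff hL).mp hx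

section real

variable {S : ℝ → ℝ → ℝ → ℝ} {L : AddSubgroup V} {δ : ℚ} {u w : V}

/-- The value by any totally positive vector of the lattice. -/
theorem cL_eq_F (h : CS S) (hθ : Irrational θ) (hA : Hyp θ A η)
    (hLat : Lat L δ u w) (hL : Stb A L) {x : V ⧸ L} (hx : x ∈ Fx A L) {v : V} (hv : v ∈ L)
    (p1 : 0 < ell θ v) (p2 : 0 < det v (A v)) :
    cL S θ A L x = F S θ (fib L x) v (A v) :=
  cl_eq h hθ hA (SH.Lat.of_gh hLat) hL (isFix_of hL hx) hv p1 p2

/-- **(T)** -/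
theorem cL_pow (h : CS S) (hθ : Irrational θ) (hA : Hyp θ A η) (h1 : 1 < η)
    (hLat : Lat L δ u w) (hL : Stb A L) {x : V ⧸ L} (hx : x ∈ Fx A L) {j : ℕ} (hj : 0 < j) :
    cL S θ (pw A j) L x = cL S θ A L x ^ j :=
  cl_pow h hθ (good_of hθ hA h1) (SH.Lat.of_gh hLat) hL (isFix_of hL hx) hj

/-- **(H)**: transport by `g` with `g L = L'`, `g A' = A g`. -/
theorem cL_map (h : CS S) {θ' : ℝ} (hθ : Irrational θ) (hθ' : Irrational θ')
    {A' : V ≃+ V} (hA : Hyp θ A η) (hA' : Hyp θ' A' η) (h1 : 1 < η)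
    {L' : AddSubgroup V} {δ' : ℚ} {u' w' : V} (hLat : Lat L δ u w) (hLat' : Lat L' δ' u' w')
    (hL : Stb A' L) (g : V ≃+ V) (hg : ∀ p, g p ∈ L' ↔ p ∈ L) {ε : ℚ} (hε : 0 < ε)
    (hdet : ∀ p q, det (g p) (g q) = ε * det p q) {l : ℝ} (hl : 0 < l)
    (hell : ∀ p, ell θ (g p) = l * ell θ' p) (hc : ∀ p, g (A' p) = A (g p)) {p : V}
    (hx : (QuotientAddGroup.mk p : V ⧸ L) ∈ Fx A' L) :
    cL S θ A L' (QuotientAddGroup.mk (g p)) = cL S θ' A' L (QuotientAddGroup.mk p) :=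
  cl_map h hθ hθ' hA (good_of hθ' hA' h1) (SH.Lat.of_gh hLat) (SH.Lat.of_gh hLat') hL g hg hε
    hdet hl hell hc (isFix_of hL hx)

/-- Invariance under an automorphism of `(V, L)` commuting with `A`. -/
theorem cL_comm (h : CS S) (hθ : Irrational θ) (hA : Hyp θ A η) (h1 : 1 < η)
    (hLat : Lat L δ u w) (hL : Stb A L) (g : V ≃+ V) (hg : Stb g L) {l : ℝ}
    (hG : Hyp θ g l) (hc : ∀ p, g (A p) = A (g p)) {p : V}
    (hx : (QuotientAddGroup.mk p : V ⧸ L) ∈ Fx A L) :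
    cL S θ A L (QuotientAddGroup.mk (g p)) = cL S θ A L (QuotientAddGroup.mk p) :=
  cL_map h hθ hθ hA hA h1 hLat hLat hL g hg (ε := 1) one_pos
    (fun p q => by rw [one_mul, hG.det_eq]) hG.pos hG.ell_eq hc hx

/-- **(D)**: `L ≤ L'`, `z i` (`i ∈ s`) representatives of `L' / L`. -/
theorem cL_dist (h : CS S) (hθ : Irrational θ) (hA : Hyp θ A η) (h1 : 1 < η)
    {L' : AddSubgroup V} {δ' : ℚ} {u' w' : V} (hLat : Lat L δ u w) (hLat' : Lat L' δ' u' w')
    (hL : Stb A L) (hLL : L ≤ L') {ι : Type*} (s : Finset ι) (z : ι → V)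
    (hz : ∀ i ∈ s, z i ∈ L') (hz1 : ∀ l ∈ L', ∃ i ∈ s, l - z i ∈ L)
    (hz2 : ∀ i ∈ s, ∀ j ∈ s, z i - z j ∈ L → i = j) {p : V}
    (hx : ∀ i ∈ s, (QuotientAddGroup.mk (p + z i) : V ⧸ L) ∈ Fx A L) :
    cL S θ A L' (QuotientAddGroup.mk p) =
      ∏ i ∈ s, cL S θ A L (QuotientAddGroup.mk (p + z i)) :=
  cl_dist h hθ (good_of hθ hA h1) (SH.Lat.of_gh hLat) (SH.Lat.of_gh hLat') hL hLL s z hz hz1 hz2
    (fun i hi => isFix_of hL (hx i hi))

/-- **(D)** for multiplication by `q`: `c(q p) = ∏_{t ∈ q⁻¹L/L} c(p + t)`. -/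
theorem cL_mulq (h : CS S) (hθ : Irrational θ) (hA : Hyp θ A η) (h1 : 1 < η)
    (hLat : Lat L δ u w) (hL : Stb A L) {q : ℕ} (hq : 0 < q) {p : V}
    (hx : ∀ m n : ℕ, (QuotientAddGroup.mk (p + ((m : ℚ) / q) • u + ((n : ℚ) / q) • w) : V ⧸ L)
      ∈ Fx A L) :
    cL S θ A L (QuotientAddGroup.mk ((q : ℚ) • p)) =
      ∏ m ∈ Finset.range q, ∏ n ∈ Finset.range q,
        cL S θ A L (QuotientAddGroup.mk (p + ((m : ℚ) / q) • u + ((n : ℚ) / q) • w)) := by
  have hq' : (0 : ℚ) < q := by exact_mod_cast hq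
  have hqR : (0 : ℝ) < q := by exact_mod_cast hq
  -- the lattice `q⁻¹ L`
  let g : V ≃+ V :=
    { toFun := fun p => (q : ℚ) • p
      invFun := fun p => (q : ℚ)⁻¹ • p
      left_inv := fun p => by simp only [smul_smul, inv_mul_cancel₀ hq'.ne', one_smul]
      right_inv := fun p => by simp only [smul_smul, mul_inv_cancel₀ hq'.ne', one_smul]
      map_add' := fun p r => smul_add _ _ _ }
  have hgd : ∀ p, g p = (q : ℚ) • p := fun p => rfl
  set L' : AddSubgroup V := L.comap g.toAddMonoidHom with hL'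
  have hmem : ∀ p, p ∈ L' ↔ (q : ℚ) • p ∈ L := fun p => Iff.rfl
  have hu := hLat.left_mem
  have hw := hLat.right_mem
  have hLat' : Lat L' (δ / (q * q)) ((q : ℚ)⁻¹ • u) ((q : ℚ)⁻¹ • w) := by
    refine ⟨?_, ?_, ?_⟩
    · ext p
      rw [hmem, hLat.eq, AddSubgroup.mem_closure_pair, AddSubgroup.mem_closure_pair]
      constructor
      · rintro ⟨m, n, e⟩
        refine ⟨m, n, ?_⟩
        have : p = (q : ℚ)⁻¹ • ((q : ℚ) • p) := by
          rw [smul_smul, inv_mul_cancel₀ hq'.ne', one_smul]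
        rw [this, ← e, smul_add, smul_comm (q : ℚ)⁻¹ m u, smul_comm (q : ℚ)⁻¹ n w]
      · rintro ⟨m, n, e⟩
        refine ⟨m, n, ?_⟩
        rw [← e, smul_add, smul_comm (q : ℚ) m, smul_comm (q : ℚ) n, smul_smul, smul_smul,
          mul_inv_cancel₀ hq'.ne', one_smul, one_smul]
    · rw [det_smul_left, det_smul_right, hLat.det_eq]
      field_simp
    · have := hLat.pos
      positivity
  have hs' : Stb A L' := by
    intro p
    rw [hmem, hmem, ← map_smul_rat, hL]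
  have hLL : L ≤ L' := by
    intro p hp
    rw [hmem, Nat.cast_smul_eq_nsmul]
    exact L.nsmul_mem hp _
  -- `mk p` in `V / L'` is fixed
  have hp0 : A p - p ∈ L := by
    have := hx 0 0
    rw [Nat.cast_zero, zero_div, zero_smul, zero_smul, add_zero, add_zero, mem_Fx hL] at this
    exact this
  have hxp : (QuotientAddGroup.mk p : V ⧸ L') ∈ Fx A L' := by
    rw [mem_Fx hs']
    exact hLL hp0
  have e1 : cL S θ A L (QuotientAddGroup.mk (g p)) = cL S θ A L' (QuotientAddGroup.mk p) :=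
    cL_map h hθ hθ hA hA h1 hLat' hLat hs' g (fun p => Iff.rfl) (ε := (q : ℚ) * q)
      (mul_pos hq' hq') (fun p r => by rw [hgd, hgd, det_smul_left, det_smul_right]; ring)
      (l := q) hqR (fun p => by rw [hgd, ell_smul]; push_cast; rfl)
      (fun p => by rw [hgd, hgd, map_smul_rat]) hxp
  rw [hgd] at e1
  rw [e1, ← Finset.prod_product']
  have hz : ∀ mn : ℕ × ℕ, p + ((mn.1 : ℚ) / q) • u + ((mn.2 : ℚ) / q) • w =
      p + (((mn.1 : ℚ) / q) • u + ((mn.2 : ℚ) / q) • w) := fun mn => by rw [add_assoc]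
  have e2 := cL_dist h hθ hA h1 hLat hLat' hL hLL
    (Finset.range q ×ˢ Finset.range q)
    (fun mn => ((mn.1 : ℚ) / q) • u + ((mn.2 : ℚ) / q) • w) (p := p) ?_ ?_ ?_ ?_
  · rw [e2]
    refine Finset.prod_congr rfl fun mn _ => ?_
    rw [hz]
  · rintro ⟨m, n⟩ _
    rw [hmem, smul_add, smul_smul, smul_smul, mul_div_cancel₀ _ hq'.ne',
      mul_div_cancel₀ _ hq'.ne', Nat.cast_smul_eq_nsmul, Nat.cast_smul_eq_nsmul]
    exact L.add_mem (L.nsmul_mem hu _) (L.nsmul_mem hw _)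
  · intro l hl
    rw [hmem, hLat.eq, AddSubgroup.mem_closure_pair] at hl
    obtain ⟨m, n, e⟩ := hl
    have hqZ : (0 : ℤ) < q := by exact_mod_cast hq
    have em : ((m % (q : ℤ)).toNat : ℤ) = m % q :=
      Int.toNat_of_nonneg (Int.emod_nonneg _ hqZ.ne')
    have en : ((n % (q : ℤ)).toNat : ℤ) = n % q :=
      Int.toNat_of_nonneg (Int.emod_nonneg _ hqZ.ne')
    have lm := Int.emod_lt_of_pos m hqZ
    have ln := Int.emod_lt_of_pos n hqZ
    refine ⟨((m % (q : ℤ)).toNat, (n % (q : ℤ)).toNat), ?_, ?_⟩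
    · rw [Finset.mem_product, Finset.mem_range, Finset.mem_range]
      constructor <;> omega
    · simp only
      have em' : (((m % (q : ℤ)).toNat : ℕ) : ℚ) = (m : ℚ) - q * ((m / q : ℤ) : ℚ) := by
        have h3 : m % (q : ℤ) = m - q * (m / q) := by
          have := Int.emod_add_mul_ediv m q
          linarith
        have h4 : (((m % (q : ℤ)).toNat : ℕ) : ℤ) = m - q * (m / q) := by rw [em, h3]
        exact_mod_cast h4
      have en' : (((n % (q : ℤ)).toNat : ℕ) : ℚ) = (n : ℚ) - q * ((n / q : ℤ) : ℚ) := by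
        have h3 : n % (q : ℤ) = n - q * (n / q) := by
          have := Int.emod_add_mul_ediv n q
          linarith
        have h4 : (((n % (q : ℤ)).toNat : ℕ) : ℤ) = n - q * (n / q) := by rw [en, h3]
        exact_mod_cast h4
      rw [em', en']
      have el : l = ((m : ℚ) / q) • u + ((n : ℚ) / q) • w := by
        have h5 : l = (q : ℚ)⁻¹ • ((q : ℚ) • l) := by
          rw [smul_smul, inv_mul_cancel₀ hq'.ne', one_smul]
        rw [h5, ← e, smul_add, ← Int.cast_smul_eq_zsmul ℚ m u, ← Int.cast_smul_eq_zsmul ℚ n w,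
          smul_smul, smul_smul]
        congr 2 <;> ring
      have e3 : l - ((((m : ℚ) - q * ((m / q : ℤ) : ℚ)) / q) • u +
          (((n : ℚ) - q * ((n / q : ℤ) : ℚ)) / q) • w) = (m / (q : ℤ)) • u + (n / (q : ℤ)) • w := by
        rw [el, ← Int.cast_smul_eq_zsmul ℚ (m / (q : ℤ)) u,
          ← Int.cast_smul_eq_zsmul ℚ (n / (q : ℤ)) w, add_sub_add_comm, ← sub_smul, ← sub_smul]
        congr 2 <;> field_simp <;> ring
      rw [e3]
      exact L.add_mem (L.zsmul_mem hu _) (L.zsmul_mem hw _)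
  · rintro ⟨m, n⟩ hmn ⟨m', n'⟩ hmn' hd
    rw [Finset.mem_product, Finset.mem_range, Finset.mem_range] at hmn hmn'
    simp only at hd hmn hmn'
    have e3 : ((m : ℚ) / q) • u + ((n : ℚ) / q) • w - (((m' : ℚ) / q) • u + ((n' : ℚ) / q) • w) =
        (((m : ℚ) - m') / q) • u + (((n : ℚ) - n') / q) • w := by
      rw [add_sub_add_comm, ← sub_smul, ← sub_smul]
      congr 2 <;> ring
    rw [e3, hLat.mem_iff] at hd
    obtain ⟨⟨i, hi⟩, ⟨j, hj⟩⟩ := hd
    rw [det_add_left, det_smul_left, det_smul_left, det_self, hLat.det_eq, mul_zero,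
      add_zero] at hi
    rw [det_add_right, det_smul_right, det_smul_right, det_self, hLat.det_eq, mul_zero,
      zero_add] at hj
    have hi' := mul_right_cancel₀ hLat.ne hi
    have hj' := mul_right_cancel₀ hLat.ne hj
    rw [div_eq_iff hq'.ne'] at hi' hj'
    have hi2 : (m : ℤ) - m' = i * q := by exact_mod_cast hi'
    have hj2 : (n : ℤ) - n' = j * q := by exact_mod_cast hj'
    have hi3 : i = 0 := by
      by_contra hne
      have : (q : ℤ) ≤ |i * q| := by
        rw [abs_mul, abs_of_nonneg (by positivity : (0 : ℤ) ≤ (q : ℤ))]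
        have := Int.one_le_abs hne
        nlinarith
      rw [← hi2] at this
      rw [le_abs] at this
      omega
    have hj3 : j = 0 := by
      by_contra hne
      have : (q : ℤ) ≤ |j * q| := by
        rw [abs_mul, abs_of_nonneg (by positivity : (0 : ℤ) ≤ (q : ℤ))]
        have := Int.one_le_abs hne
        nlinarith
      rw [← hj2] at this
      rw [le_abs] at this
      omega
    rw [hi3, zero_mul] at hi2
    rw [hj3, zero_mul] at hj2
    ext <;> simp only <;> omega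
  · rintro ⟨m, n⟩ _
    simp only
    rw [← add_assoc]
    exact hx m n

end real

end Pool.MP_d0f9e0_co.GH
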