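import Mathlib
import Pool.Agent.Lib.MP_d0f9e0_co.GH.Defs
import Pool.Agent.Lib.MP_d0f9e0_co.AL28

set_option autoImplicit false

/-!
# Algebraicity of the values of near group data
(helper28, Project Z, MP_d0f9e0_co)

`NG.al_isAlgebraic`: all the values `c a` of near group data are algebraic numbers.
Also: roots of unity `ψ x y`, `(z x / z 0) ^ 2`.
-/

namespace Pool.MP_d0f9e0_co.GH

namespace NG

variable {G : Type*} [AddCommGroup G] [Fintype G] {η : ℝ} {ψ : G → G → ℂ} {c : G → ℝ}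
    {z : G → ℂ}

theorem al_z_ne (h : NG η ψ c z) (x : G) : z x ≠ 0 := by
  intro h0
  have := h.znorm x
  rw [h0, norm_zero] at this
  exact one_ne_zero this.symm

theorem al_psi_ne (h : NG η ψ c z) (x y : G) : ψ x y ≠ 0 := by
  intro h0
  have := h.zquad x y
  rw [h0, mul_zero] at this
  exact mul_ne_zero (pow_ne_zero 2 (h.al_z_ne _)) (pow_ne_zero 2 (h.al_z_ne 0)) this

theorem al_psi_zero_left (h : NG η ψ c z) (y : G) : ψ 0 y = 1 := by
  have h1 := h.add 0 0 y
  rw [add_zero] at h1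
  have h2 := h.al_psi_ne 0 y
  exact (mul_right_cancel₀ h2 (by rw [one_mul]; exact h1)).symm

theorem al_psi_zero_right (h : NG η ψ c z) (y : G) : ψ y 0 = 1 := by
  rw [h.symm, h.al_psi_zero_left]

theorem al_psi_neg_left (h : NG η ψ c z) (x y : G) : ψ (-x) y = (ψ x y)⁻¹ := by
  have h1 := h.add (-x) x y
  rw [neg_add_cancel, h.al_psi_zero_left] at h1
  exact eq_inv_of_mul_eq_one_left h1.symm

theorem al_psi_neg_right (h : NG η ψ c z) (x y : G) : ψ x (-y) = (ψ x y)⁻¹ := by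
  rw [h.symm, h.al_psi_neg_left, h.symm]

theorem al_psi_nsmul_left (h : NG η ψ c z) (k : ℕ) (x y : G) : ψ (k • x) y = ψ x y ^ k := by
  induction k with
  | zero => rw [zero_smul, h.al_psi_zero_left, pow_zero]
  | succ k ih => rw [succ_nsmul, h.add, ih, pow_succ]

theorem al_psi_pow_card (h : NG η ψ c z) (x y : G) : ψ x y ^ Fintype.card G = 1 := by
  rw [← h.al_psi_nsmul_left, card_nsmul_eq_zero, h.al_psi_zero_left]

theorem al_card_pos (_h : NG η ψ c z) : 0 < Fintype.card G := Fintype.card_pos_iff.mpr ⟨0⟩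

theorem al_psi_alg (h : NG η ψ c z) (x y : G) : IsAlgebraic ℚ (ψ x y) := by
  have h1 : IsAlgebraic ℚ (ψ x y ^ Fintype.card G) := by
    rw [h.al_psi_pow_card]; exact isAlgebraic_one
  exact IsAlgebraic.of_pow h.al_card_pos h1

/-- `w(x) = (z x / z 0)^2` satisfies `w(x)^2 = ψ(x,x)`. -/
theorem al_z_pow_four (h : NG η ψ c z) (x : G) : (z x / z 0) ^ 4 = ψ x x := by
  have h1 := h.zquad x (-x)
  rw [add_neg_cancel, h.zneg, h.al_psi_neg_right] at h1
  have h2 := h.al_z_ne 0
  have h3 := h.al_z_ne x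
  have h4 := h.al_psi_ne x x
  rw [div_pow, div_eq_iff (pow_ne_zero _ h2)]
  have h5 : z 0 ^ 4 * ψ x x = z x ^ 4 := by
    have : z 0 ^ 4 * ψ x x = (z 0 ^ 2 * z 0 ^ 2) * ψ x x := by ring
    rw [this, h1]
    field_simp
  rw [mul_comm]; exact h5.symm

theorem al_z_div_alg (h : NG η ψ c z) (x : G) : IsAlgebraic ℚ (z x / z 0) := by
  have h1 : IsAlgebraic ℚ ((z x / z 0) ^ 4) := by
    rw [h.al_z_pow_four]; exact h.al_psi_alg x x
  exact IsAlgebraic.of_pow (by norm_num) h1

theorem al_z_div_alg2 (h : NG η ψ c z) (x y : G) : IsAlgebraic ℚ (z x / z y) := by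
  have h1 : z x / z y = (z x / z 0) * (z y / z 0)⁻¹ := by
    have h2 := h.al_z_ne 0
    have h3 := h.al_z_ne y
    field_simp
  rw [h1]
  exact (h.al_z_div_alg x).mul (h.al_z_div_alg y).inv

theorem al_eta_pos (h : NG η ψ c z) : 0 < η := lt_trans one_pos h.one_lt

theorem al_eta_alg (h : NG η ψ c z) : IsAlgebraic ℚ (η : ℂ) := by
  have h0 := h.al_eta_pos
  have h1 : (η : ℂ) ^ 2 - (Fintype.card G + 2 : ℂ) * η + 1 = 0 := by
    have h2 := h.card
    have h3 : η ^ 2 - (Fintype.card G + 2 : ℝ) * η + 1 = 0 := by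
      rw [h2]; field_simp; ring
    exact_mod_cast h3
  refine ⟨Polynomial.X ^ 2 - Polynomial.C (Fintype.card G + 2 : ℚ) * Polynomial.X + 1, ?_, ?_⟩
  · intro h4
    have := congrArg (fun p => Polynomial.coeff p 2) h4
    simp [Polynomial.coeff_one] at this
  · simp
    linear_combination h1

theorem al_sqrt_alg (h : NG η ψ c z) : IsAlgebraic ℚ ((√η : ℝ) : ℂ) := by
  have h1 : IsAlgebraic ℚ (((√η : ℝ) : ℂ) ^ 2) := by
    have h2 : (((√η : ℝ) : ℂ) ^ 2) = (η : ℂ) := by
      exact_mod_cast Real.sq_sqrt h.al_eta_pos.le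
    rw [h2]; exact h.al_eta_alg
  exact IsAlgebraic.of_pow (by norm_num) h1

/-- **Algebraicity** of the values of near group data. -/
theorem al_isAlgebraic (h : NG η ψ c z) (a : G) : IsAlgebraic ℚ (c a : ℂ) := by
  classical
  have hη := h.al_eta_pos
  have hs : (0 : ℝ) < √η := Real.sqrt_pos.mpr hη
  have hs1 : (1 : ℝ) < √η := by
    rw [show (1 : ℝ) = √1 by simp]; exact Real.sqrt_lt_sqrt zero_le_one h.one_lt
  have hc : ∀ a, (c a : ℂ) ≠ 0 := fun a => by
    exact_mod_cast (h.pos a).ne'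
  have hci : ∀ a, a ≠ 0 → (c a : ℂ) * c (-a) = 1 := fun a ha => by
    exact_mod_cast h.neg a ha
  refine AL.al28_isAlgebraic (fun a => (c a : ℂ)) hc ?_ ?_ ψ h.al_psi_alg h.symm ?_
    (((√η - (√η)⁻¹ : ℝ) : ℂ)) ?_ ?_ (fun p a => z a / z (a - p))
    (fun p q => ψ p q * (z p * z q / (z 0 * z (q + p)))) ?_ ?_ ?_ ?_ ?_ a
  · show IsAlgebraic ℚ ((c 0 : ℝ) : ℂ)
    rw [h.zero]; exact h.al_sqrt_alg
  · intro a ha
    show IsAlgebraic ℚ ((c a : ℂ) * c (-a))
    rw [hci a ha]; exact isAlgebraic_one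
  · intro a b
    rw [h.al_psi_neg_right, h.al_psi_neg_left]
  · have : (√η - (√η)⁻¹ : ℝ) ≠ 0 := by
      have h5 : (√η)⁻¹ < 1 := inv_lt_one_of_one_lt₀ hs1
      have : 0 < √η - (√η)⁻¹ := by linarith
      exact this.ne'
    exact_mod_cast this
  · push_cast
    exact h.al_sqrt_alg.sub h.al_sqrt_alg.inv
  · intro p a; exact h.al_z_div_alg2 _ _
  · intro p q
    have : z p * z q / (z 0 * z (q + p)) = (z p / z 0) * (z q / z (q + p)) := by
      rw [mul_div_mul_comm]
    rw [this]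
    exact (h.al_psi_alg p q).mul ((h.al_z_div_alg2 _ _).mul (h.al_z_div_alg2 _ _))
  · intro p hp q
    have h1 := h.A2 p hp q
    rw [h1]
    have h2 : -q - p = -p - q := by abel
    rw [h2]; ring
  · intro p hp
    have z0 := h.al_z_ne 0
    have zp := h.al_z_ne p
    have gen : ∀ a : G, (z a / z (a - p)) * (ψ p (-a) * (z p * z (-a) / (z 0 * z (-a + p))))
        = z 0 / z p := by
      intro a
      have za := h.al_z_ne a
      have zap := h.al_z_ne (a - p)
      have h1 : z (-a + p) = z (a - p) := by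
        rw [← h.zneg (a - p)]; congr 1; abel
      have h2 := h.zquad a (-p)
      rw [← sub_eq_add_neg, h.zneg p, h.al_psi_neg_right, h.symm a p] at h2
      have h3 := h.al_psi_ne p a
      rw [h1, h.zneg a, h.al_psi_neg_right]
      field_simp
      have h4 : z (a - p) ^ 2 * z 0 ^ 2 * ψ p a = z a ^ 2 * z p ^ 2 := by
        rw [h2]; field_simp
      linear_combination -h4
    refine ⟨z 0 / z p, div_ne_zero z0 zp, ?_, ?_, ?_⟩
    · intro a ha hap
      have h1 : (c (p - a) : ℂ) * c (-p + a) = 1 := by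
        have := hci (p - a) (sub_ne_zero.mpr (Ne.symm hap))
        rw [show -(p - a) = -p + a by abel] at this
        exact this
      calc (c a : ℂ) * c (p - a) * (z a / z (a - p)) *
            (c (-a) * c (-p + a) * (ψ p (-a) * (z p * z (-a) / (z 0 * z (-a + p)))))
          = ((c a : ℂ) * c (-a)) * ((c (p - a) : ℂ) * c (-p + a)) *
            ((z a / z (a - p)) * (ψ p (-a) * (z p * z (-a) / (z 0 * z (-a + p))))) := by ring
        _ = z 0 / z p := by rw [hci a ha, h1, gen a, one_mul, one_mul]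
    · have g0 := gen 0
      rw [neg_zero, zero_add, zero_sub] at g0
      calc (c 0 : ℂ) * c p * (z 0 / z (0 - p)) *
            (c 0 * c (-p) * (ψ p 0 * (z p * z 0 / (z 0 * z (0 + p)))))
          = ((c p : ℂ) * c (-p)) *
            ((z 0 / z (-p)) * (ψ p 0 * (z p * z 0 / (z 0 * z p)))) * (c 0 : ℂ) ^ 2 := by
              rw [zero_sub, zero_add]; ring
        _ = z 0 / z p * (c 0 : ℂ) ^ 2 := by rw [hci p hp, g0, one_mul]
    · have gp := gen p
      rw [sub_self, neg_add_cancel] at gp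
      calc (c p : ℂ) * c 0 * (z p / z (p - p)) *
            (c (-p) * c 0 * (ψ p (-p) * (z p * z (-p) / (z 0 * z (-p + p)))))
          = ((c p : ℂ) * c (-p)) *
            ((z p / z 0) * (ψ p (-p) * (z p * z (-p) / (z 0 * z 0)))) * (c 0 : ℂ) ^ 2 := by
              rw [sub_self, neg_add_cancel]; ring
        _ = z 0 / z p * (c 0 : ℂ) ^ 2 := by rw [hci p hp, gp, one_mul]
  · have h1 : ((c 0 : ℝ) : ℂ) ^ 2 = η := by
      rw [h.zero]; exact_mod_cast Real.sq_sqrt hη.le
    show ((Fintype.card G : ℂ)) + 2 - 2 * ((c 0 : ℝ) : ℂ) ^ 2 ≠ 0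
    rw [h1]
    have h2 : (Fintype.card G : ℝ) + 2 - 2 * η ≠ 0 := by
      rw [h.card]
      have h5 : η⁻¹ < 1 := inv_lt_one_of_one_lt₀ h.one_lt
      have := h.one_lt
      intro h6
      linarith
    exact_mod_cast h2

end NG

end Pool.MP_d0f9e0_co.GH
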