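import Pool.Agent.Lib.MP_d0f9e0_co.GH.Defs
import Pool.Agent.Lib.MP_d0f9e0_co.GH.Alg
import Pool.Agent.Lib.MP_d0f9e0_co.FD.Conj

/-!
# Near group data and the Galois step

`NG.exists_sigma`: with the congruence law for `c ^ 2` there is an automorphism `σ` of `ℂ` with
`|σ (c x)| = 1` for all `x ≠ 0`.
-/

set_option autoImplicit false

namespace Pool.MP_d0f9e0_co.GH

variable {G : Type*} [AddCommGroup G] [Fintype G] {η : ℝ} {ψ : G → G → ℂ} {c : G → ℝ}
  {z : G → ℂ}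

namespace NG

theorem z_ne (h : NG η ψ c z) (x : G) : z x ≠ 0 := by
  intro h0
  have := h.znorm x
  rw [h0, norm_zero] at this
  exact zero_ne_one this

theorem psi_norm (h : NG η ψ c z) (x y : G) : ‖ψ x y‖ = 1 := by
  have h1 := congrArg norm (h.zquad x y)
  rw [norm_mul, norm_mul, norm_mul, norm_pow, norm_pow, norm_pow, norm_pow, h.znorm, h.znorm,
    h.znorm, h.znorm] at h1
  simpa using h1.symm

theorem psi_ne (h : NG η ψ c z) (x y : G) : ψ x y ≠ 0 := by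
  intro h0
  have := h.psi_norm x y
  rw [h0, norm_zero] at this
  exact zero_ne_one this

theorem psi_zero (h : NG η ψ c z) (y : G) : ψ 0 y = 1 := by
  have h1 := h.add 0 0 y
  rw [add_zero] at h1
  exact (mul_eq_left₀ (h.psi_ne 0 y)).1 h1.symm

theorem psi_zero' (h : NG η ψ c z) (x : G) : ψ x 0 = 1 := by
  rw [h.symm, h.psi_zero]

theorem psi_add' (h : NG η ψ c z) (x y w : G) : ψ x (y + w) = ψ x y * ψ x w := by
  rw [h.symm, h.add, h.symm y, h.symm w]

theorem psi_neg (h : NG η ψ c z) (x y : G) : ψ (-x) y * ψ x y = 1 := by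
  rw [← h.add, neg_add_cancel, h.psi_zero]

theorem psi_neg' (h : NG η ψ c z) (x y : G) : ψ x (-y) * ψ x y = 1 := by
  rw [h.symm x (-y), h.symm x y, h.psi_neg]

theorem psi_neg_comm (h : NG η ψ c z) (x y : G) : ψ x (-y) = ψ (-x) y := by
  have h1 := h.psi_neg x y
  have h2 := h.psi_neg' x y
  exact mul_right_cancel₀ (h.psi_ne x y) (h2.trans h1.symm)

theorem psi_nsmul (h : NG η ψ c z) (n : ℕ) (x y : G) : ψ (n • x) y = ψ x y ^ n := by
  induction n with
  | zero => rw [zero_smul, h.psi_zero, pow_zero]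
  | succ n ih => rw [succ_nsmul, h.add, ih, pow_succ]

theorem psi_pow (h : NG η ψ c z) (x y : G) : ψ x y ^ Fintype.card G = 1 := by
  rw [← h.psi_nsmul, card_nsmul_eq_zero, h.psi_zero]

/-- the normalised phases are roots of unity -/
theorem z_pow (h : NG η ψ c z) (x : G) : (z x / z 0) ^ (4 * Fintype.card G) = 1 := by
  have h1 := h.zquad x (-x)
  rw [add_neg_cancel, h.zneg] at h1
  have h0 := h.z_ne 0
  have h2 : (z x / z 0) ^ 4 * ψ x (-x) = 1 := by
    field_simp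
    linear_combination -h1
  have h3 : ψ x (-x) ^ Fintype.card G = 1 := h.psi_pow _ _
  have h4 : ((z x / z 0) ^ 4 * ψ x (-x)) ^ Fintype.card G = 1 := by rw [h2, one_pow]
  rwa [mul_pow, h3, mul_one, ← pow_mul] at h4

theorem card_pos (_h : NG η ψ c z) : 0 < Fintype.card G := Fintype.card_pos

theorem isAlgebraic_of_pow_eq_one {u : ℂ} {n : ℕ} (hn : 0 < n) (h : u ^ n = 1) :
    IsAlgebraic ℚ u := by
  apply IsAlgebraic.of_pow hn
  rw [h]
  exact isAlgebraic_one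

theorem psi_alg (h : NG η ψ c z) (x y : G) : IsAlgebraic ℚ (ψ x y) :=
  isAlgebraic_of_pow_eq_one h.card_pos (h.psi_pow x y)

theorem z_alg (h : NG η ψ c z) (x : G) : IsAlgebraic ℚ (z x / z 0) :=
  isAlgebraic_of_pow_eq_one (Nat.mul_pos (by norm_num) h.card_pos) (h.z_pow x)

theorem eta_pos (h : NG η ψ c z) : 0 < η := zero_lt_one.trans h.one_lt

theorem eta_alg (h : NG η ψ c z) : IsAlgebraic ℚ ((η : ℝ) : ℂ) := by
  have hη := h.eta_pos
  have h1 : η ^ 2 - ((Fintype.card G : ℝ) + 2) * η + 1 = 0 := by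
    rw [h.card]
    field_simp
    ring
  have h2 : ((η : ℝ) : ℂ) ^ 2 - ((Fintype.card G : ℂ) + 2) * ((η : ℝ) : ℂ) + 1 = 0 := by
    exact_mod_cast congrArg (fun x : ℝ => (x : ℂ)) h1
  let P : Polynomial ℚ := Polynomial.X ^ 2 - Polynomial.C ((Fintype.card G : ℚ) + 2) *
    Polynomial.X + 1
  refine ⟨P, ?_, ?_⟩
  · intro h0
    have h3 : P.eval 0 = 1 := by simp [P]
    rw [h0] at h3
    simp at h3
  · have h3 : Polynomial.aeval ((η : ℝ) : ℂ) P =
        ((η : ℝ) : ℂ) ^ 2 - ((Fintype.card G : ℂ) + 2) * ((η : ℝ) : ℂ) + 1 := by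
      simp [P]
    rw [h3, h2]

theorem sqrt_alg (h : NG η ψ c z) : IsAlgebraic ℚ ((√η : ℝ) : ℂ) := by
  apply IsAlgebraic.of_pow (by norm_num : 0 < 2)
  rw [← Complex.ofReal_pow, Real.sq_sqrt h.eta_pos.le]
  exact h.eta_alg

theorem kap_ne (h : NG η ψ c z) : ((√η - (√η)⁻¹ : ℝ) : ℂ) ≠ 0 := by
  have h1 : 1 < √η := by
    rw [Real.lt_sqrt (by norm_num)]
    simpa using h.one_lt
  have h2 : (√η)⁻¹ < 1 := inv_lt_one_of_one_lt₀ h1
  have h3 : (√η - (√η)⁻¹) ≠ 0 := by linarith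
  exact_mod_cast h3

theorem kap_alg (h : NG η ψ c z) : IsAlgebraic ℚ ((√η - (√η)⁻¹ : ℝ) : ℂ) := by
  push_cast
  exact h.sqrt_alg.sub h.sqrt_alg.inv

theorem phase_id (h : NG η ψ c z) (p a : G) :
    (z a / z (a - p)) * (ψ p (-a) * (z p * z (-a) / (z 0 * z (-a + p)))) =
      (z p / z 0) ^ 3 * ψ (-p) p := by
  have h1 := h.zquad (a - p) p
  rw [sub_add_cancel] at h1
  have h2 : z (-a + p) = z (a - p) := by
    rw [← h.zneg (a - p)]
    congr 1
    abel
  have h3 : ψ (a - p) p = ψ a p * ψ (-p) p := by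
    rw [sub_eq_add_neg, h.add]
  have h4 : ψ p (-a) * ψ a p = 1 := by
    rw [h.symm a p, h.psi_neg']
  have h0 := h.z_ne 0
  have h5 := h.z_ne (a - p)
  have h6 := h.z_ne p
  rw [h.zneg, h2]
  rw [h3] at h1
  field_simp
  -- z a ^ 2 * ψ p (-a) * z 0 ^ 2 = z p ^ 2 * ψ (-p) p * z (a-p) ^ 2
  linear_combination (ψ p (-a)) * h1 + z (a - p) ^ 2 * z p ^ 2 * ψ (-p) p * h4

/-- **The Galois step for near group data.**  The law is needed only for `x ≠ 0`. -/
theorem exists_sigma (h : NG η ψ c z) (tr : ℤ) (htr : 3 ≤ tr) (N : ℕ)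
    (law : ∀ q : ℕ, q.Prime → N < q → ¬ IsSquare ((tr ^ 2 - 4 : ℤ) : ZMod q) →
      ∀ O : ValuationSubring ℂ, (q : ℂ) ∈ O.nonunits → ∀ x : G, x ≠ 0 →
        (((c x) ^ 2 : ℝ) : ℂ) ∈ O ∧
          (((c x) ^ 2 : ℝ) : ℂ) ^ (q ^ 2) - (((c (q • x)) ^ 2 : ℝ) : ℂ) ∈ O.nonunits) :
    ∃ σ : ℂ ≃+* ℂ, σ ((Real.sqrt ((tr : ℝ) ^ 2 - 4) : ℝ) : ℂ) =
        -((Real.sqrt ((tr : ℝ) ^ 2 - 4) : ℝ) : ℂ) ∧
      (∀ x, x ≠ 0 → ‖σ ((c x : ℝ) : ℂ)‖ = 1) ∧ ∀ x, ‖σ (z x / z 0)‖ = 1 := by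
  classical
  let C : G → ℂ := fun x => if x = 0 then 1 else (((c x) ^ 2 : ℝ) : ℂ)
  have hC0 : C 0 = 1 := if_pos rfl
  have hC : ∀ x, x ≠ 0 → C x = (((c x) ^ 2 : ℝ) : ℂ) := fun x hx => if_neg hx
  have hCalg : ∀ x, IsAlgebraic ℚ (C x) := by
    intro x
    by_cases hx : x = 0
    · rw [hx, hC0]
      exact isAlgebraic_one
    · rw [hC x hx, Complex.ofReal_pow]
      exact (h.al_isAlgebraic x).pow 2
  have hCreal : ∀ x, (starRingEnd ℂ) (C x) = C x := by
    intro x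
    by_cases hx : x = 0
    · rw [hx, hC0, map_one]
    · rw [hC x hx, Complex.conj_ofReal]
  have hClaw : ∀ q : ℕ, q.Prime → max N (Fintype.card G) < q →
      ¬ IsSquare ((tr ^ 2 - 4 : ℤ) : ZMod q) → ∀ O : ValuationSubring ℂ, (q : ℂ) ∈ O.nonunits →
      ∀ x, C x ∈ O ∧ C x ^ (q ^ 2) - C (q • x) ∈ O.nonunits := by
    intro q hq hqN hsq O hqO x
    have hN : N < q := lt_of_le_of_lt (le_max_left _ _) hqN
    have hcard : Fintype.card G < q := lt_of_le_of_lt (le_max_right _ _) hqN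
    by_cases hx : x = 0
    · rw [hx, smul_zero, hC0, one_pow, sub_self]
      exact ⟨O.one_mem, zero_mem _⟩
    · have hqx : q • x ≠ 0 := by
        intro h0
        apply hx
        have hcop : Nat.Coprime q (Fintype.card G) :=
          (Nat.Prime.coprime_iff_not_dvd hq).2 (fun hd => by
            have := Nat.le_of_dvd h.card_pos hd
            omega)
        have h1 : addOrderOf x ∣ q := addOrderOf_dvd_of_nsmul_eq_zero h0
        have h2 : addOrderOf x ∣ Fintype.card G := addOrderOf_dvd_card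
        have h3 : addOrderOf x ∣ 1 := by
          rw [← hcop]
          exact Nat.dvd_gcd h1 h2
        exact AddMonoid.addOrderOf_eq_one_iff.1 (Nat.dvd_one.1 h3)
      rw [hC x hx, hC _ hqx]
      exact law q hq hN hsq O hqO x hx
  obtain ⟨σ, hσ1, hσ2⟩ := Pool.Agent.Lib.MP_d0f9e0_co.FD.exists_norm_one_trace tr htr C hCalg
    hCreal _ hClaw
  refine ⟨σ, hσ1, fun x hx => ?_, fun x => ?_⟩
  · have h1 : C x * C (-x) = 1 := by
      rw [hC x hx, hC (-x) (neg_ne_zero.2 hx), ← Complex.ofReal_mul, ← mul_pow, h.neg x hx]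
      simp
    have h2 := hσ2 x h1
    rw [hC x hx, Complex.ofReal_pow, map_pow, norm_pow] at h2
    exact (pow_eq_one_iff_of_nonneg (norm_nonneg _) (by norm_num)).1 h2
  · have h1 : ‖σ (z x / z 0)‖ ^ (4 * Fintype.card G) = 1 := by
      rw [← norm_pow, ← map_pow, h.z_pow, map_one, norm_one]
    exact (pow_eq_one_iff_of_nonneg (norm_nonneg _)
      (Nat.mul_pos (by norm_num) h.card_pos).ne').1 h1

end NG

end Pool.MP_d0f9e0_co.GH
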