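import Mathlib
import Pool.Agent.Lib.MP_d0f9e0_co.GH.Rel87
import Pool.Agent.Lib.MP_d0f9e0_co.GH.Card
import Pool.Agent.Lib.MP_d0f9e0_co.PH.Cs96

set_option autoImplicit false

/-!
# Transport of the near group data from the standard lattice to every lattice
-/

namespace Pool.MP_d0f9e0_co.GH

open SH

/-- Near group data are transported by isomorphisms. -/
theorem NG.transport {G G' : Type*} [AddCommGroup G] [Fintype G] [AddCommGroup G'] [Fintype G']
    {η : ℝ} {ψ : G → G → ℂ} {c : G → ℝ} {z : G → ℂ} {ψ' : G' → G' → ℂ} {c' : G' → ℝ}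
    {z' : G' → ℂ} (e : G ≃+ G') (hψ : ∀ x y, ψ' (e x) (e y) = ψ x y)
    (hc : ∀ x, c' (e x) = c x) (hz : ∀ x, z' (e x) = z x) (h : NG η ψ c z) :
    NG η ψ' c' z' where
  one_lt := h.one_lt
  card := by
    rw [← h.card, Fintype.card_congr e.toEquiv]
  add := by
    intro x y w
    obtain ⟨x, rfl⟩ := e.surjective x
    obtain ⟨y, rfl⟩ := e.surjective y
    obtain ⟨w, rfl⟩ := e.surjective w
    rw [← map_add, hψ, hψ, hψ, h.add]
  symm := by
    intro x y
    obtain ⟨x, rfl⟩ := e.surjective x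
    obtain ⟨y, rfl⟩ := e.surjective y
    rw [hψ, hψ, h.symm]
  nondeg := by
    intro x hx
    obtain ⟨x, rfl⟩ := e.surjective x
    have hx0 : x ≠ 0 := by
      rintro rfl
      exact hx (map_zero e)
    obtain ⟨y, hy⟩ := h.nondeg x hx0
    exact ⟨e y, by rw [hψ]; exact hy⟩
  pos := by
    intro x
    obtain ⟨x, rfl⟩ := e.surjective x
    rw [hc]; exact h.pos x
  zero := by
    rw [← map_zero e, hc]; exact h.zero
  neg := by
    intro x hx
    obtain ⟨x, rfl⟩ := e.surjective x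
    have hx0 : x ≠ 0 := by
      rintro rfl
      exact hx (map_zero e)
    rw [← map_neg, hc, hc]; exact h.neg x hx0
  znorm := by
    intro x
    obtain ⟨x, rfl⟩ := e.surjective x
    rw [hz]; exact h.znorm x
  zneg := by
    intro x
    obtain ⟨x, rfl⟩ := e.surjective x
    rw [← map_neg, hz, hz]; exact h.zneg x
  zquad := by
    intro x y
    obtain ⟨x, rfl⟩ := e.surjective x
    obtain ⟨y, rfl⟩ := e.surjective y
    have h0 : z' 0 = z 0 := by rw [← map_zero e, hz]
    rw [← map_add, hz, hz, hz, hψ, h0]; exact h.zquad x y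
  A2 := by
    intro p hp y
    obtain ⟨p, rfl⟩ := e.surjective p
    obtain ⟨y, rfl⟩ := e.surjective y
    have hp0 : p ≠ 0 := by
      rintro rfl
      exact hp (map_zero e)
    have h0 : z' 0 = z 0 := by rw [← map_zero e, hz]
    have h1 : ∑ a, (c' a : ℂ) * c' (e p - a) * (z' a / z' (a - e p)) * ψ' a (e y) =
        ∑ a, (c a : ℂ) * c (p - a) * (z a / z (a - p)) * ψ a y := by
      rw [← e.toEquiv.sum_comp]
      refine Finset.sum_congr rfl fun a _ => ?_
      have e1 : e.toEquiv a = e a := rfl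
      rw [e1, ← map_sub, ← map_sub, hc, hc, hz, hz, hψ]
    have e2 : -(e y) - e p = e (-y - p) := by rw [map_sub, map_neg]
    rw [h1, e2, ← map_add, hψ, hc, hc, hc, hz, hz, hz, h0]
    exact h.A2 p hp0 y

/-- Near group data at `(θ, A, L)`. -/
structure NGat (S : ℝ → ℝ → ℝ → ℝ) (θ : ℝ) (A : V ≃+ V) (η : ℝ) (L : AddSubgroup V)
    (δ : ℚ) : Prop where
  out : ∀ [Fintype (Fx A L)], NG η (fun x y : Fx A L => psi A L δ (x : V ⧸ L) (y : V ⧸ L))
    (fun x => cL S θ A L (x : V ⧸ L)) (fun x => zL θ A L (x : V ⧸ L))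

variable {S : ℝ → ℝ → ℝ → ℝ}

theorem zL_gq {θ θ' η : ℝ} (hθ : Irrational θ) (hθ' : Irrational θ') {A A' : V ≃+ V}
    (hA : Hyp θ A η) (hA' : Hyp θ' A' η) (h1 : 1 < η) {L L' : AddSubgroup V} {δ δ' : ℚ}
    {u w u' w' : V} (hLat : Lat L δ u w) (hLat' : Lat L' δ' u' w') (hL : Stb A' L)
    (g : V ≃+ V) (hg : ∀ p, g p ∈ L' ↔ p ∈ L) {κ : ℚ} (hκ : 0 < κ)
    (hdet : ∀ p q, det (g p) (g q) = κ * det p q) {l : ℝ} (hl : 0 < l)
    (hell : ∀ p, ell θ (g p) = l * ell θ' p) (hc : ∀ p, g (A' p) = A (g p)) {x : V ⧸ L}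
    (hx : x ∈ Fx A' L) : zL θ A L' (gq g L L' hg x) = zL θ' A' L x := by
  unfold zL
  obtain ⟨v, hv, p1, p2⟩ := exists_adm hθ' hA' h1 hLat
  rw [PH.clsZ_map hθ hθ' hA hA' (fib_disc hLat x) (fib_disc hLat' _) (fib_inv hL hx) g
    (fib_gq g L L' hg x) hκ hdet hl hell hc ⟨fib_per L x hv, p1, p2⟩]

theorem cL_gq (h : CS S) {θ θ' η : ℝ} (hθ : Irrational θ) (hθ' : Irrational θ')
    {A A' : V ≃+ V} (hA : Hyp θ A η) (hA' : Hyp θ' A' η) (h1 : 1 < η) {L L' : AddSubgroup V}
    {δ δ' : ℚ} {u w u' w' : V} (hLat : Lat L δ u w) (hLat' : Lat L' δ' u' w') (hL : Stb A' L)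
    (g : V ≃+ V) (hg : ∀ p, g p ∈ L' ↔ p ∈ L) {κ : ℚ} (hκ : 0 < κ)
    (hdet : ∀ p q, det (g p) (g q) = κ * det p q) {l : ℝ} (hl : 0 < l)
    (hell : ∀ p, ell θ (g p) = l * ell θ' p) (hc : ∀ p, g (A' p) = A (g p)) {x : V ⧸ L}
    (hx : x ∈ Fx A' L) : cL S θ A L' (gq g L L' hg x) = cL S θ' A' L x := by
  obtain ⟨p, rfl⟩ := QuotientAddGroup.mk_surjective x
  exact cL_map h hθ hθ' hA hA' h1 hLat hLat' hL g hg hκ hdet hl hell hc hx

/-- Transport of near group data along `g : V ≃+ V`. -/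
theorem NGat.map (h : CS S) {θ θ' η : ℝ} (hθ : Irrational θ) (hθ' : Irrational θ')
    {A A' : V ≃+ V} (hA : Hyp θ A η) (hA' : Hyp θ' A' η) (h1 : 1 < η) {L L' : AddSubgroup V}
    {δ δ' : ℚ} {u w u' w' : V} (hLat : Lat L δ u w) (hLat' : Lat L' δ' u' w') (hL : Stb A' L)
    (g : V ≃+ V) (hg : ∀ p, g p ∈ L' ↔ p ∈ L) {κ : ℚ} (hκ : 0 < κ)
    (hdet : ∀ p q, det (g p) (g q) = κ * det p q) (hδ : δ' = κ * δ) {l : ℝ} (hl : 0 < l)
    (hell : ∀ p, ell θ (g p) = l * ell θ' p) (hc : ∀ p, g (A' p) = A (g p))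
    (hng : NGat S θ' A' η L δ) : NGat S θ A η L' δ' := by
  constructor
  intro inst
  have hfin : Finite (Fx A' L) := finite_Fx hθ' hA' h1 hLat hL
  let _ : Fintype (Fx A' L) := Fintype.ofFinite _
  have hng' := hng.out
  refine hng'.transport (gF hg hc hL) ?_ ?_ ?_
  · intro x y
    rw [coe_gF, coe_gF]
    exact psi_gq hA' hA hLat hLat' hg hc hL hκ.ne' hdet hδ x.2 y.2
  · intro x
    rw [coe_gF]
    exact cL_gq h hθ hθ' hA hA' h1 hLat hLat' hL g hg hκ hdet hl hell hc x.2
  · intro x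
    rw [coe_gF]
    exact zL_gq hθ hθ' hA hA' h1 hLat hLat' hL g hg hκ hdet hl hell hc x.2

/-- Every lattice has a basis whose first vector is totally positive. -/
theorem exists_pos_basis {θ η : ℝ} (hθ : Irrational θ) {A : V ≃+ V} (hA : Hyp θ A η)
    (h1 : 1 < η) {L : AddSubgroup V} {δ : ℚ} {u w : V} (hLat : Lat L δ u w) :
    ∃ u' w', Lat L δ u' w' ∧ 0 < ell θ u' ∧ 0 < det u' (A u') := by
  obtain ⟨v, hv, p1, p2⟩ := exists_adm hθ hA h1 hLat
  have hv' := hv
  rw [hLat.eq, AddSubgroup.mem_closure_pair] at hv'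
  obtain ⟨m, n, hmn⟩ := hv'
  have hne : Int.gcd m n ≠ 0 := by
    intro h0
    rw [Int.gcd_eq_zero_iff] at h0
    obtain ⟨rfl, rfl⟩ := h0
    rw [zero_smul, zero_smul, add_zero] at hmn
    rw [← hmn] at p2
    simp [det] at p2
  have hpos : 0 < Int.gcd m n := Nat.pos_of_ne_zero hne
  obtain ⟨m', n', hg, hm, hn⟩ := Int.exists_gcd_one hpos
  set k := Int.gcd m n with hk
  have hbez := Int.gcd_eq_gcd_ab m' n'
  rw [hg] at hbez
  set a := Int.gcdA m' n'
  set b := Int.gcdB m' n'
  -- `m' a + n' b = 1`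
  set u' : V := m' • u + n' • w with hu'
  set w' : V := (-b) • u + a • w with hw'
  have hdd : (m' : ℚ) * a + n' * b = 1 := by exact_mod_cast hbez.symm
  have hdz : m' * a + n' * b = 1 := by exact_mod_cast hbez.symm
  have hdet : det u' w' = δ := by
    rw [hu', hw', ← Int.cast_smul_eq_zsmul ℚ m' u, ← Int.cast_smul_eq_zsmul ℚ n' w,
      ← Int.cast_smul_eq_zsmul ℚ (-b) u, ← Int.cast_smul_eq_zsmul ℚ a w]
    simp only [det_add_left, det_add_right, det_smul_left, det_smul_right, det_self]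
    rw [det_swap u w, hLat.det_eq]
    push_cast
    linear_combination δ * hdd
  have hLat' : Lat L δ u' w' := by
    refine ⟨?_, hdet, hLat.pos⟩
    rw [hLat.eq]
    refine le_antisymm ?_ ?_
    · rw [AddSubgroup.closure_le]
      rintro x (rfl | hx)
      · rw [SetLike.mem_coe, AddSubgroup.mem_closure_pair]
        refine ⟨a, -n', ?_⟩
        rw [hu', hw', smul_add, smul_add, smul_smul, smul_smul, smul_smul, smul_smul]
        have e1 : a * m' + -n' * -b = 1 := by linear_combination hdz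
        have e2 : a * n' + -n' * a = 0 := by ring
        calc (a * m') • x + (a * n') • w + ((-n' * -b) • x + (-n' * a) • w)
            = (a * m' + -n' * -b) • x + (a * n' + -n' * a) • w := by
              rw [add_smul, add_smul]; abel
          _ = x := by rw [e1, e2, one_smul, zero_smul, add_zero]
      · rw [Set.mem_singleton_iff] at hx
        subst hx
        rw [SetLike.mem_coe, AddSubgroup.mem_closure_pair]
        refine ⟨b, m', ?_⟩
        rw [hu', hw', smul_add, smul_add, smul_smul, smul_smul, smul_smul, smul_smul]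
        have e1 : b * m' + m' * -b = 0 := by ring
        have e2 : b * n' + m' * a = 1 := by linear_combination hdz
        calc (b * m') • u + (b * n') • x + ((m' * -b) • u + (m' * a) • x)
            = (b * m' + m' * -b) • u + (b * n' + m' * a) • x := by
              rw [add_smul, add_smul]; abel
          _ = x := by rw [e1, e2, one_smul, zero_smul, zero_add]
    · rw [AddSubgroup.closure_le]
      rintro x (rfl | hx)
      · rw [SetLike.mem_coe, AddSubgroup.mem_closure_pair]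
        exact ⟨m', n', rfl⟩
      · rw [Set.mem_singleton_iff] at hx
        subst hx
        rw [SetLike.mem_coe, AddSubgroup.mem_closure_pair]
        exact ⟨-b, a, rfl⟩
  have hkQ : (0 : ℚ) < k := by exact_mod_cast hpos
  have hkR : (0 : ℝ) < k := by exact_mod_cast hpos
  have hvk : v = (k : ℚ) • u' := by
    rw [← hmn, hu', smul_add, ← Int.cast_smul_eq_zsmul ℚ m u, ← Int.cast_smul_eq_zsmul ℚ n w,
      ← Int.cast_smul_eq_zsmul ℚ m' u, ← Int.cast_smul_eq_zsmul ℚ n' w, smul_smul, smul_smul]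
    congr 2
    · rw [hm]; push_cast; ring
    · rw [hn]; push_cast; ring
  refine ⟨u', w', hLat', ?_, ?_⟩
  · rw [hvk, ell_smul] at p1
    push_cast at p1
    exact pos_of_mul_pos_right p1 hkR.le
  · rw [hvk, map_smul_rat, det_smul_left, det_smul_right] at p2
    exact pos_of_mul_pos_right (pos_of_mul_pos_right p2 hkQ.le) hkQ.le

/-- The automorphism of `V` with `(1,0) ↦ u`, `(0,1) ↦ w`. -/
noncomputable def gb (u w : V) (h : det u w ≠ 0) : V ≃+ V where
  toFun p := p.1 • u + p.2 • w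
  invFun q := (det q w / det u w, det u q / det u w)
  left_inv p := by
    ext
    · simp only [det_add_left, det_smul_left, det_self]
      field_simp
      ring
    · simp only [det_add_right, det_smul_right, det_self]
      field_simp
      ring
  right_inv q := by
    have key : (det q w / det u w) • u + (det u q / det u w) • w = q := by
      have e := det_expand u w q
      have e2 : (det u w)⁻¹ • (det u w • q) = q := by
        rw [smul_smul, inv_mul_cancel₀ h, one_smul]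
      rw [e, smul_add, smul_smul, smul_smul] at e2
      rw [div_eq_inv_mul, div_eq_inv_mul]
      exact e2
    exact key
  map_add' p q := by
    rw [Prod.fst_add, Prod.snd_add, add_smul, add_smul]
    abel

theorem gb_apply (u w : V) (h : det u w ≠ 0) (p : V) : gb u w h p = p.1 • u + p.2 • w := rfl

theorem gb_det (u w : V) (h : det u w ≠ 0) (p q : V) :
    det (gb u w h p) (gb u w h q) = det u w * det p q := by
  rw [gb_apply, gb_apply]
  simp only [det_add_left, det_add_right, det_smul_left, det_smul_right, det_self]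
  rw [det_swap u w]
  simp only [det]
  ring

theorem gb_mem {L : AddSubgroup V} {δ : ℚ} {u w : V} (hLat : Lat L δ u w)
    (h : det u w ≠ 0) (p : V) : gb u w h p ∈ L ↔ p ∈ Zl := by
  rw [hLat.mem_iff]
  have hZ : Lat Zl 1 (1, 0) (0, 1) := ⟨rfl, by simp [det], one_pos⟩
  rw [hZ.mem_iff, gb_apply]
  have e1 : det (p.1 • u + p.2 • w) w = p.1 * δ := by
    rw [det_add_left, det_smul_left, det_smul_left, det_self, hLat.det_eq]; ring
  have e2 : det u (p.1 • u + p.2 • w) = p.2 * δ := by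
    rw [det_add_right, det_smul_right, det_smul_right, det_self, hLat.det_eq]; ring
  have e3 : det p (0, 1) = p.1 := by simp [det]
  have e4 : det (1, 0) p = p.2 := by simp [det]
  rw [e1, e2, e3, e4]
  constructor
  · rintro ⟨⟨m, hm⟩, ⟨n, hn⟩⟩
    exact ⟨⟨m, by rw [mul_one]; exact mul_right_cancel₀ hLat.ne hm⟩,
      ⟨n, by rw [mul_one]; exact mul_right_cancel₀ hLat.ne hn⟩⟩
  · rintro ⟨⟨m, hm⟩, ⟨n, hn⟩⟩
    rw [mul_one] at hm hn
    exact ⟨⟨m, by rw [hm]⟩, ⟨n, by rw [hn]⟩⟩

/-- **Near group data for every lattice**, from the standard lattice and automorphisms for which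
`(1,0)` is totally positive. -/
theorem NGat_all (h : CS S)
    (base : ∀ (θ : ℝ) (A : V ≃+ V) (η : ℝ), Irrational θ → Hyp θ A η → 1 < η → Stb A Zl →
      0 < det (1, 0) (A (1, 0)) → NGat S θ A η Zl 1)
    {θ η : ℝ} (hθ : Irrational θ) {A : V ≃+ V} (hA : Hyp θ A η) (h1 : 1 < η)
    {L : AddSubgroup V} {δ : ℚ} {u w : V} (hLat : Lat L δ u w) (hL : Stb A L) :
    NGat S θ A η L δ := by
  obtain ⟨u', w', hLat', p1, p2⟩ := exists_pos_basis hθ hA h1 hLat
  have hd : det u' w' ≠ 0 := by rw [hLat'.det_eq]; exact hLat'.ne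
  have hd' : det w' u' ≠ 0 := by rw [det_swap]; exact neg_ne_zero.mpr hd
  set g := gb u' w' hd with hg
  set θ' : ℝ := ell θ w' / ell θ u' with hθd
  have hθ' : Irrational θ' := irr_ratio hθ p1 hd'
  have hell : ∀ p, ell θ (g p) = ell θ u' * ell θ' p := by
    intro p
    have e3 : ell θ' p = p.1 + p.2 * θ' := rfl
    rw [hg, gb_apply, ell_add, ell_smul, ell_smul, e3, hθd]
    have p1' := p1.ne'
    generalize ell θ u' = x at p1' ⊢
    field_simp
  set A' : V ≃+ V := (g.trans A).trans g.symm with hA'd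
  have hc : ∀ p, g (A' p) = A (g p) := by
    intro p
    rw [hA'd, AddEquiv.trans_apply, AddEquiv.trans_apply, AddEquiv.apply_symm_apply]
  have hdet : ∀ p q, det (g p) (g q) = δ * det p q := by
    intro p q
    rw [hg, gb_det, hLat'.det_eq]
  have hA' : Hyp θ' A' η := by
    refine ⟨?_, ?_, hA.pos⟩
    · intro p q
      have e := hdet (A' p) (A' q)
      rw [hc, hc, hA.det_eq, hdet] at e
      exact (mul_left_cancel₀ hLat'.ne e).symm
    · intro p
      have e := hell (A' p)
      rw [hc, hA.ell_eq, hell] at e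
      exact mul_left_cancel₀ p1.ne' (by rw [← e]; ring)
  have hmem : ∀ p, g p ∈ L ↔ p ∈ Zl := fun p => gb_mem hLat' hd p
  have hs : Stb A' Zl := by
    intro p
    rw [← hmem, ← hmem, hc, hL]
  have hg1 : g (1, 0) = u' := by
    rw [hg, gb_apply]
    simp
  have hpos : 0 < det (1, 0) (A' (1, 0)) := by
    have e := hdet (1, 0) (A' (1, 0))
    rw [hc, hg1] at e
    rw [e] at p2
    exact pos_of_mul_pos_right p2 hLat'.pos.le
  have hZ : Lat Zl 1 (1, 0) (0, 1) := ⟨rfl, by simp [det], one_pos⟩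
  exact NGat.map h hθ hθ' hA hA' h1 hZ hLat' hs g hmem hLat'.pos hdet (by rw [mul_one]) p1 hell hc
    (base θ' A' η hθ' hA' h1 hs hpos)

end Pool.MP_d0f9e0_co.GH
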