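import Mathlib
import Pool.Agent.Lib.MP_d0f9e0_co.AV12.Beta
import Pool.Agent.Lib.MP_d0f9e0_co.GH.AllNG
import Pool.Agent.Lib.MP_d0f9e0_co.GH.Transport87
import Pool.Agent.Lib.MP_d0f9e0_co.GH.Gal32
import Pool.Agent.Lib.MP_d0f9e0_co.LL54.Law54

set_option autoImplicit false

/-!
# From near group data for all lattices (and the congruence law) to equiangular lines
-/

namespace Pool.MP_d0f9e0_co.GH

open SH Pool.Agent.Lib.MP_d0f9e0_co.FN

variable {S : ℝ → ℝ → ℝ → ℝ}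

theorem pw_comm (A : V ≃+ V) (j : ℕ) (p : V) : A (pw A j p) = pw A j (A p) := by
  rw [← pow_apply_succ, pow_apply_succ']

/-- The phase is invariant under the base map. -/
theorem zL_Bm {T : ℤ} (hT : 3 ≤ T) {j : ℕ} (hj : 0 < j) {p : V}
    (hp : (QuotientAddGroup.mk p : V ⧸ Zl) ∈ Fx (pw (Bm T) j) Zl) :
    zL (bet T) (pw (Bm T) j) Zl (QuotientAddGroup.mk (Bm T p))
      = zL (bet T) (pw (Bm T) j) Zl (QuotientAddGroup.mk p) := by
  have h1 := bet_gt hT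
  exact zL_gq (irr_bet hT) (irr_bet hT) ((hyp_Bm hT).pow j) ((hyp_Bm hT).pow j)
    (one_lt_pow₀ h1 hj.ne') lat_Zl lat_Zl (stb_pw (stb_Bm T) j) (Bm T) (stb_Bm T)
    (κ := 1) one_pos (fun p q => by rw [(hyp_Bm hT).det_eq, one_mul])
    (l := bet T) (lt_trans one_pos h1) (hyp_Bm hT).ell_eq (fun p => pw_comm (Bm T) j p) hp

theorem one_lt_bet3 {T : ℤ} (hT : 3 ≤ T) : 1 < bet T ^ 3 := one_lt_pow₀ (bet_gt hT) (by norm_num)

theorem bet3_trace {T : ℤ} (hT : 3 ≤ T) :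
    bet T ^ 3 + (bet T ^ 3)⁻¹ = ((T ^ 3 - 3 * T : ℤ) : ℝ) := by
  have h0 : bet T ≠ 0 := by have := bet_gt hT; linarith
  have h2 : bet T ^ 3 + (bet T ^ 3)⁻¹ = (bet T + (bet T)⁻¹) ^ 3 - 3 * (bet T + (bet T)⁻¹) := by
    field_simp
    ring
  rw [h2, bet_add_inv hT]
  push_cast
  rfl

theorem trace_ge {T : ℤ} (hT : 3 ≤ T) : 3 ≤ T ^ 3 - 3 * T := by
  have h1 : T * (T ^ 2 - 3) = T ^ 3 - 3 * T := by ring
  have h2 : 6 ≤ T ^ 2 - 3 := by nlinarith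
  nlinarith

/-- **The idempotents**, from near group data for all lattices. -/
theorem hasGhost_of_allNG (hS : CS S) (h : AllNG S) {d : ℕ} (hd : 4 ≤ d) : HasGhost d := by
  have hT : (3 : ℤ) ≤ (d : ℤ) - 1 := by omega
  have : NeZero d := ⟨by omega⟩
  have hfin : Finite (Fx (pw (Bm ((d : ℤ) - 1)) 3) Zl) :=
    finite_Fx (irr_bet hT) ((hyp_Bm hT).pow 3) (one_lt_bet3 hT) lat_Zl (stb_pw (stb_Bm _) 3)
  let _ : Fintype (Fx (pw (Bm ((d : ℤ) - 1)) 3) Zl) := Fintype.ofFinite _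
  exact Pool.Agent.Lib.MP_d0f9e0_co.AV12.hasGhost_of_bet hd hS rfl
    (h _ _ _ _ _ _ _ (irr_bet hT) ((hyp_Bm hT).pow 3) (one_lt_bet3 hT) lat_Zl
      (stb_pw (stb_Bm _) 3))
    (fun p hp => zL_Bm hT (by norm_num) hp)

/-- The congruence law for one map and one lattice. -/
def LawAt (S : ℝ → ℝ → ℝ → ℝ) (θ : ℝ) (A : V ≃+ V) (L : AddSubgroup V) (tr : ℤ) (N : ℕ) : Prop :=
  ∀ q : ℕ, q.Prime → N < q → ¬ IsSquare ((tr ^ 2 - 4 : ℤ) : ZMod q) →
    ∀ O : ValuationSubring ℂ, (q : ℂ) ∈ O.nonunits → ∀ x : V ⧸ L, x ∈ Fx A L → x ≠ 0 →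
      (((cL S θ A L x) ^ 2 : ℝ) : ℂ) ∈ O ∧
        (((cL S θ A L x) ^ 2 : ℝ) : ℂ) ^ (q ^ 2) - (((cL S θ A L (q • x)) ^ 2 : ℝ) : ℂ)
          ∈ O.nonunits

/-- The congruence law for all lattices. -/
def AllLaw (S : ℝ → ℝ → ℝ → ℝ) : Prop :=
  ∀ (θ : ℝ) (A : V ≃+ V) (η : ℝ) (L : AddSubgroup V) (δ : ℚ) (u w : V) (tr : ℤ),
    Irrational θ → Hyp θ A η → 1 < η → Lat L δ u w → Stb A L → η + η⁻¹ = tr →
      ∃ N : ℕ, LawAt S θ A L tr N

/-- The automorphism, from near group data and the law. -/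
theorem exists_sigma_of {θ : ℝ} {A : V ≃+ V} {η : ℝ} {L : AddSubgroup V} {δ : ℚ}
    [Fintype (Fx A L)]
    (ng : NG η (fun x y : Fx A L => psi A L δ x y) (fun x => cL S θ A L x) (fun x => zL θ A L x))
    {tr : ℤ} (htr : 3 ≤ tr) {N : ℕ} (hl : LawAt S θ A L tr N) :
    ∃ σ : ℂ →+* ℂ, ∀ x : V ⧸ L, x ∈ Fx A L → x ≠ 0 → ‖σ ((cL S θ A L x : ℝ) : ℂ)‖ = 1 := by
  obtain ⟨σ, -, h, -⟩ := ng.exists_sigma tr htr N (fun q hq hN hs O hO x hx => by
    have := hl q hq hN hs O hO x x.2 (fun h => hx (Subtype.ext h))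
    exact this)
  exact ⟨σ, fun x hx h0 => h ⟨x, hx⟩ (fun h => h0 (congrArg Subtype.val h))⟩

/-- **A fiducial vector**, from near group data for all lattices and the law for one lattice. -/
theorem hasFid_of_lawAt (hS : CS S) (h : AllNG S) {d : ℕ} [NeZero d] (hd : 4 ≤ d)
    (hlaw : ∃ N : ℕ, LawAt S (bet ((d : ℤ) - 1)) (pw (Bm ((d : ℤ) - 1)) 3) Zl
      (((d : ℤ) - 1) ^ 3 - 3 * ((d : ℤ) - 1)) N) : HasFid d := by
  have hT : (3 : ℤ) ≤ (d : ℤ) - 1 := by omega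
  have hfin : Finite (Fx (pw (Bm ((d : ℤ) - 1)) 3) Zl) :=
    finite_Fx (irr_bet hT) ((hyp_Bm hT).pow 3) (one_lt_bet3 hT) lat_Zl (stb_pw (stb_Bm _) 3)
  let _ : Fintype (Fx (pw (Bm ((d : ℤ) - 1)) 3) Zl) := Fintype.ofFinite _
  have ng := h _ _ _ _ _ _ _ (irr_bet hT) ((hyp_Bm hT).pow 3) (one_lt_bet3 hT) lat_Zl
      (stb_pw (stb_Bm _) 3)
  obtain ⟨N, hN⟩ := hlaw
  obtain ⟨σ, hσ⟩ := exists_sigma_of ng (trace_ge hT) hN
  exact Pool.Agent.Lib.MP_d0f9e0_co.AV12.hasFid_of_bet hd hS rfl ng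
    (fun p hp => zL_Bm hT (by norm_num) hp) σ hσ

/-- **Equiangular lines**, from near group data for all lattices and the law for one lattice. -/
theorem hasETF_of_allNG (hS : CS S) (h : AllNG S) {d : ℕ} (hd : 4 ≤ d)
    (hlaw : ∃ N : ℕ, LawAt S (bet ((d : ℤ) - 1)) (pw (Bm ((d : ℤ) - 1)) 3) Zl
      (((d : ℤ) - 1) ^ 3 - 3 * ((d : ℤ) - 1)) N) : HasETF d := by
  have : NeZero d := ⟨by omega⟩
  exact (hasFid_of_lawAt hS h hd hlaw).hasETF

/-- **Equiangular lines**, from near group data and the law for all lattices. -/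
theorem hasETF_of_allLaw (hS : CS S) (h : AllNG S) (hlaw : AllLaw S) {d : ℕ} (hd : 4 ≤ d) :
    HasETF d := by
  have hT : (3 : ℤ) ≤ (d : ℤ) - 1 := by omega
  exact hasETF_of_allNG hS h hd (hlaw _ _ _ _ _ _ _ _ (irr_bet hT) ((hyp_Bm hT).pow 3)
    (one_lt_bet3 hT) lat_Zl (stb_pw (stb_Bm _) 3) (bet3_trace hT))

/-- The congruence law for all lattices follows from near group data for all lattices. -/
theorem allLaw_of_allNG (hS : DS S) (h : AllNG S) : AllLaw S := by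
  intro θ A η L δ u w tr hθ hA h1 hL hs hT
  refine ⟨Nat.card (Fx A L), fun q hq hc hns O hO x hx _ => ?_⟩
  exact LL54.law hS h hθ hA h1 hL hs hT q hq hc hns O hO ⟨x, hx⟩

/-- **A fiducial vector in every dimension at least four**, from near group data. -/
theorem hasFid_of_allNG (hS : DS S) (h : AllNG S) {d : ℕ} [NeZero d] (hd : 4 ≤ d) :
    HasFid d := by
  have hT : (3 : ℤ) ≤ (d : ℤ) - 1 := by omega
  exact hasFid_of_lawAt hS.cs h hd (allLaw_of_allNG hS h _ _ _ _ _ _ _ _ (irr_bet hT)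
    ((hyp_Bm hT).pow 3) (one_lt_bet3 hT) lat_Zl (stb_pw (stb_Bm _) 3) (bet3_trace hT))

/-- **A fiducial vector in every dimension**, from near group data. -/
theorem hasFid_all (hS : DS S) (h : AllNG S) (d : ℕ) [NeZero d] : HasFid d :=
  fid_all_of_four (fun _ _ hd => hasFid_of_allNG hS h hd) d

/-- **Equiangular lines in every dimension**, from near group data. -/
theorem hasETF_all (hS : DS S) (h : AllNG S) (d : ℕ) (hd : 1 ≤ d) : HasETF d := by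
  have : NeZero d := ⟨by omega⟩
  exact (hasFid_all hS h d).hasETF

end Pool.MP_d0f9e0_co.GH
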