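import Mathlib
import Pool.Agent.Lib.MP_d0f9e0_co.GH.Transport87
import Pool.Agent.Lib.MP_d0f9e0_co.AN.Symm

set_option autoImplicit false

/-!
# Transport of the near group equation at one pair to an arbitrary lattice
-/

namespace Pool.MP_d0f9e0_co.GH

open SH Pool.Agent.Lib.MP_d0f9e0_co.AN

theorem a2At_map {G G' : Type*} [AddCommGroup G] [Fintype G] [AddCommGroup G'] [Fintype G']
    {η : ℝ} {ψ : G → G → ℂ} {c : G → ℝ} {z : G → ℂ} {ψ' : G' → G' → ℂ} {c' : G' → ℝ}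
    {z' : G' → ℂ} (e : G ≃+ G') (hψ : ∀ x y, ψ' (e x) (e y) = ψ x y)
    (hc : ∀ x, c' (e x) = c x) (hz : ∀ x, z' (e x) = z x) {p y : G}
    (h : A2At η ψ c z p y) : A2At η ψ' c' z' (e p) (e y) := by
  unfold A2At at h ⊢
  have h0 : z' 0 = z 0 := by rw [← map_zero e, hz]
  have h1 : ∑ a, (c' a : ℂ) * c' (e p - a) * (z' a / z' (a - e p)) * ψ' a (e y) =
      ∑ a, (c a : ℂ) * c (p - a) * (z a / z (a - p)) * ψ a y := by
    rw [← e.toEquiv.sum_comp]
    refine Finset.sum_congr rfl fun a _ => ?_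
    have e1 : e.toEquiv a = e a := rfl
    rw [e1, ← map_sub, ← map_sub, hc, hc, hz, hz, hψ]
  have e2 : -(e y) - e p = e (-y - p) := by rw [map_sub, map_neg]
  rw [h1, e2, ← map_add, hψ, hc, hc, hc, hz, hz, hz, h0]
  exact h

/-- The equation (A2) for the standard lattice and one good pair of representatives. -/
def OneA2 (S : ℝ → ℝ → ℝ → ℝ) : Prop :=
  ∀ (θ : ℝ) (A : V ≃+ V) (η : ℝ) [Fintype (Fx A Zl)], Irrational θ → Hyp θ A η → 1 < η →
    Stb A Zl → 0 < det (1, 0) (A (1, 0)) →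
    ∀ (p y : V) (hp : (QuotientAddGroup.mk p : V ⧸ Zl) ∈ Fx A Zl)
      (hy : (QuotientAddGroup.mk y : V ⧸ Zl) ∈ Fx A Zl), 0 < p.2 → 0 ≤ y.2 → p.2 + y.2 < 1 →
      A2At η (fun x y : Fx A Zl => psi A Zl 1 (x : V ⧸ Zl) (y : V ⧸ Zl))
        (fun x => cL S θ A Zl (x : V ⧸ Zl)) (fun x => zL θ A Zl (x : V ⧸ Zl))
        ⟨QuotientAddGroup.mk p, hp⟩ ⟨QuotientAddGroup.mk y, hy⟩

/-- In the coordinates of a basis `e, f` of `L` with `ell e > 0`. -/
theorem exists_std {θ η : ℝ} (hθ : Irrational θ) {A : V ≃+ V} (hA : Hyp θ A η)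
    {L : AddSubgroup V} {δ : ℚ} {e f : V} (hLat : Lat L δ e f) (hL : Stb A L)
    (p1 : 0 < ell θ e) (hd : det e f ≠ 0) :
    ∃ (θ' : ℝ) (A' : V ≃+ V), Irrational θ' ∧ Hyp θ' A' η ∧ Stb A' Zl ∧
      (∀ p, ell θ (gb e f hd p) = ell θ e * ell θ' p) ∧
      (∀ p, gb e f hd (A' p) = A (gb e f hd p)) ∧
      det e (A e) = δ * det (1, 0) (A' (1, 0)) := by
  have hd' : det f e ≠ 0 := by rw [det_swap]; exact neg_ne_zero.mpr hd
  set g := gb e f hd with hg
  set θ' : ℝ := ell θ f / ell θ e with hθd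
  have hθ' : Irrational θ' := irr_ratio hθ p1 hd'
  have hell : ∀ p, ell θ (g p) = ell θ e * ell θ' p := by
    intro p
    have e3 : ell θ' p = p.1 + p.2 * θ' := rfl
    rw [hg, gb_apply, ell_add, ell_smul, ell_smul, e3, hθd]
    have p1' := p1.ne'
    generalize ell θ e = x at p1' ⊢
    field_simp
  set A' : V ≃+ V := (g.trans A).trans g.symm with hA'd
  have hc : ∀ p, g (A' p) = A (g p) := by
    intro p
    rw [hA'd, AddEquiv.trans_apply, AddEquiv.trans_apply, AddEquiv.apply_symm_apply]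
  have hdet : ∀ p q, det (g p) (g q) = δ * det p q := by
    intro p q
    rw [hg, gb_det, hLat.det_eq]
  have hmem : ∀ p, g p ∈ L ↔ p ∈ Zl := fun p => gb_mem hLat hd p
  have hg1 : g (1, 0) = e := by
    rw [hg, gb_apply]
    simp
  refine ⟨θ', A', hθ', ⟨?_, ?_, hA.pos⟩, ?_, hell, hc, ?_⟩
  · intro p q
    have e := hdet (A' p) (A' q)
    rw [hc, hc, hA.det_eq, hdet] at e
    exact (mul_left_cancel₀ hLat.ne e).symm
  · intro p
    have e := hell (A' p)
    rw [hc, hA.ell_eq, hell] at e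
    exact mul_left_cancel₀ p1.ne' (by rw [← e]; ring)
  · intro p
    rw [← hmem, ← hmem, hc, hL]
  · have e := hdet (1, 0) (A' (1, 0))
    rw [hc, hg1] at e
    exact e

/-- The equation (A2) at a pair which is good in one basis `e, f` of `L`. -/
theorem a2At_of_basis {S : ℝ → ℝ → ℝ → ℝ} (h : CS S) (one : OneA2 S) {θ η : ℝ}
    (hθ : Irrational θ) {A : V ≃+ V} (hA : Hyp θ A η) (h1 : 1 < η) {L : AddSubgroup V} {δ : ℚ}
    {e f : V} (hLat : Lat L δ e f) (hL : Stb A L) (p1 : 0 < ell θ e) (p2 : 0 < det e (A e))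
    [Fintype (Fx A L)] {p y : V} (hp : (QuotientAddGroup.mk p : V ⧸ L) ∈ Fx A L)
    (hy : (QuotientAddGroup.mk y : V ⧸ L) ∈ Fx A L) (f1 : 0 < Int.fract (det e p / δ))
    (f2 : Int.fract (det e p / δ) + Int.fract (det e y / δ) < 1) :
    A2At η (fun x y : Fx A L => psi A L δ (x : V ⧸ L) (y : V ⧸ L))
      (fun x => cL S θ A L (x : V ⧸ L)) (fun x => zL θ A L (x : V ⧸ L))
      ⟨QuotientAddGroup.mk p, hp⟩ ⟨QuotientAddGroup.mk y, hy⟩ := by
  have hd : det e f ≠ 0 := by rw [hLat.det_eq]; exact hLat.ne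
  obtain ⟨θ', A', hθ', hA', hs, hell, hc, hdd⟩ := exists_std hθ hA hLat hL p1 hd
  set g := gb e f hd with hg
  have hdet : ∀ p q, det (g p) (g q) = δ * det p q := by
    intro p q
    rw [hg, gb_det, hLat.det_eq]
  have hmem : ∀ p, g p ∈ L ↔ p ∈ Zl := fun p => gb_mem hLat hd p
  have hpos : 0 < det (1, 0) (A' (1, 0)) := by
    rw [hdd] at p2
    exact pos_of_mul_pos_right p2 hLat.pos.le
  have hZ : Lat Zl 1 (1, 0) (0, 1) := ⟨rfl, by simp [det], one_pos⟩
  have hfin : Finite (Fx A' Zl) := finite_Fx hθ' hA' h1 hZ hs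
  let _ : Fintype (Fx A' Zl) := Fintype.ofFinite _
  -- representatives
  have rep : ∀ q : V, (QuotientAddGroup.mk q : V ⧸ L) ∈ Fx A L →
      ∃ (r : V) (hr : (QuotientAddGroup.mk r : V ⧸ Zl) ∈ Fx A' Zl),
        r.2 = Int.fract (det e q / δ) ∧
        gq g Zl L hmem (QuotientAddGroup.mk r) = QuotientAddGroup.mk q := by
    intro q hq
    obtain ⟨r, hr⟩ := g.surjective (q - ⌊det e q / δ⌋ • f)
    have e1 : det e (g r) = δ * r.2 := by
      have e0 : g r = r.1 • e + r.2 • f := by rw [hg, gb_apply]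
      rw [e0, det_add_right, det_smul_right, det_smul_right, det_self, hLat.det_eq]
      ring
    have e2 : det e (g r) = det e q - ⌊det e q / δ⌋ * δ := by
      rw [hr, ← Int.cast_smul_eq_zsmul ℚ, det_sub_right, det_smul_right, hLat.det_eq]
    have e3 : r.2 = Int.fract (det e q / δ) := by
      have := hLat.ne
      rw [Int.fract]
      have e4 : δ * r.2 = det e q - ⌊det e q / δ⌋ * δ := by rw [← e1, e2]
      field_simp
      linarith
    have e5 : gq g Zl L hmem (QuotientAddGroup.mk r) = QuotientAddGroup.mk q := by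
      rw [gq_mk, hr, QuotientAddGroup.eq]
      have : -(q - ⌊det e q / δ⌋ • f) + q = ⌊det e q / δ⌋ • f := by abel
      rw [this]
      exact L.zsmul_mem hLat.right_mem _
    refine ⟨r, ?_, e3, e5⟩
    rw [← gq_mem_Fx hmem hc hs, e5]
    exact hq
  obtain ⟨p', hp', ep, gp⟩ := rep p hp
  obtain ⟨y', hy', ey, gy⟩ := rep y hy
  have hA2 := one θ' A' η hθ' hA' h1 hs hpos p' y' hp' hy' (by rw [ep]; exact f1)
    (by rw [ey]; exact Int.fract_nonneg _) (by rw [ep, ey]; exact f2)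
  have key := a2At_map (G' := Fx A L)
    (ψ' := fun x y : Fx A L => psi A L δ (x : V ⧸ L) (y : V ⧸ L))
    (c' := fun x => cL S θ A L (x : V ⧸ L)) (z' := fun x => zL θ A L (x : V ⧸ L))
    (gF hmem hc hs) ?_ ?_ ?_ hA2
  · have g1 : gF hmem hc hs ⟨QuotientAddGroup.mk p', hp'⟩ = ⟨QuotientAddGroup.mk p, hp⟩ := by
      apply Subtype.ext
      rw [coe_gF]
      exact gp
    have g2 : gF hmem hc hs ⟨QuotientAddGroup.mk y', hy'⟩ = ⟨QuotientAddGroup.mk y, hy⟩ := by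
      apply Subtype.ext
      rw [coe_gF]
      exact gy
    rw [g1, g2] at key
    exact key
  · intro x y
    rw [coe_gF, coe_gF]
    exact psi_gq hA' hA hZ hLat hmem hc hs hLat.pos.ne' hdet (by rw [mul_one]) x.2 y.2
  · intro x
    rw [coe_gF]
    exact cL_gq h hθ hθ' hA hA' h1 hZ hLat hs g hmem hLat.pos hdet p1 hell hc x.2
  · intro x
    rw [coe_gF]
    exact zL_gq hθ hθ' hA hA' h1 hZ hLat hs g hmem hLat.pos hdet p1 hell hc x.2

end Pool.MP_d0f9e0_co.GH
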