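import Mathlib
import Pool.Agent.Lib.MP_d0f9e0_co.GH.Transport87
import Pool.Agent.Lib.MP_d0f9e0_co.GH.AllNG

set_option autoImplicit false

/-!
# Near group data for all lattices from the standard lattice
-/

namespace Pool.MP_d0f9e0_co.GH

open SH

/-- Near group data for the standard lattice and the automorphisms `A` for which `(1,0)` is
totally positive. -/
def ZlNGpos (S : ℝ → ℝ → ℝ → ℝ) : Prop :=
  ∀ (θ : ℝ) (A : V ≃+ V) (η : ℝ) [Fintype (Fx A Zl)], Irrational θ → Hyp θ A η → 1 < η →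
    Stb A Zl → 0 < det (1, 0) (A (1, 0)) →
      NG η (fun x y : Fx A Zl => psi A Zl 1 x y) (fun x => cL S θ A Zl x)
        (fun x => zL θ A Zl x)

theorem allNG_of_pos {S : ℝ → ℝ → ℝ → ℝ} (h : CS S) (hb : ZlNGpos S) : AllNG S := by
  intro θ A η L δ u w inst hθ hA h1 hLat hL
  exact (NGat_all h (fun θ A η hθ hA h1 hL hp => ⟨fun {_} => hb θ A η hθ hA h1 hL hp⟩)
    hθ hA h1 hLat hL).out

theorem allNG_of_ZlNG {S : ℝ → ℝ → ℝ → ℝ} (h : CS S) (hb : ZlNG S) : AllNG S :=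
  allNG_of_pos h (fun θ A η _ hθ hA h1 hL _ => hb θ A η hθ hA h1 hL)

end Pool.MP_d0f9e0_co.GH
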