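import Mathlib
import Pool.Agent.Lib.MP_d0f9e0_co.AN.All
import Pool.Agent.Lib.MP_d0f9e0_co.AR.Law
import Pool.Agent.Lib.MP_d0f9e0_co.GH.FinalA
import Pool.Agent.Lib.MP_d0f9e0_co.FN.Small
import Pool.Agent.Lib.MP_d0f9e0_co.SH.Inst

set_option autoImplicit false

/-!
# Equiangular lines in every dimension, from (A2) in one basis and the quadratic relation
-/

namespace Pool.MP_d0f9e0_co.GH

open SH Pool.Agent.Lib.MP_d0f9e0_co.FN Pool.Agent.Lib.MP_d0f9e0_co.AN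

variable {S : ℝ → ℝ → ℝ → ℝ}

theorem allLaw_of (hS : DS S) (hNG : AllNG S) : AllLaw S := by
  intro θ A η L δ u w tr hθ hA h1 hLat hL htr
  obtain ⟨N, hN⟩ := Pool.MP_d0f9e0_co.AR.law hS hNG hθ hA h1 hLat hL htr
  exact ⟨N, fun q hq hNq hsq O hO x hx _ => hN q hq hNq hsq O hO ⟨x, hx⟩⟩

/-- **Maximal equiangular tight frames exist in every dimension**, from (A2) in one basis. -/
theorem main_of (one : OneA2 Sr) (quad : QuadAll) :
    ∀ d : ℕ, 1 ≤ d →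
      ∃ v : Fin (d ^ 2) → EuclideanSpace ℂ (Fin d),
        (∀ i, ‖v i‖ = 1) ∧
        (∀ i j, i ≠ j → ‖inner ℂ (v i) (v j)‖ = 1 / Real.sqrt ((d : ℝ) + 1)) := by
  have hNG : AllNG Sr := allNG_of_one ds_Sr one quad
  exact all_of_four fun d hd => hasETF_of_allLaw ds_Sr.cs hNG (allLaw_of ds_Sr hNG) hd

end Pool.MP_d0f9e0_co.GH
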